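import Pool.Agent.Lib.MP_009fd8_ag.Def

/-!
MP_009fd8_ag, ManyPrimes, leaf file: a place dividing n.
-/

namespace Pool.Agent.MP009fd8M

open Pool.Agent.MP009fd8

/-- At a place dividing n: 2 is a unit, the valuation of n is not a square in the value group,
a and b are units. If C_(a,b) has a point then a and b are squares modulo the maximal ideal.

Proof. Take a point. If W = 0: X = 0 forces Y = Z = 0, so X is nonzero, a b Z^2 = a X^2 gives
b Z^2 = X^2, Z nonzero, h = X / Z has h^2 = b, and b Y^2 = a X^2 gives g = Y / Z, g^2 = a. If W is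
nonzero: v(n W^2) is not a square, v(a X^2) = v(X)^2 is, so they differ. If
v(a X^2) < v(n W^2) then v(b Y^2) = v(Y)^2 = v(n W^2), impossible. So v(n W^2) < v(a X^2), X is
nonzero, v(Y)^2 = v(X)^2 = v(Z)^2, so h = X / Z and g = Y / Z have valuation 1;
b - h^2 = (b Z^2 - X^2) / Z^2 and a (b Z^2 - X^2) = n W^2, so
v(b - h^2) = v(n W^2) / v(Z)^2 < 1; and
b (a Z^2 - Y^2) = (a b Z^2) - b Y^2 = 2 n W^2, so v(a - g^2) = v(n W^2) / v(Z)^2 < 1. -/
theorem squares_at_l {F : Type*} [Field F] {Γ : Type*} [LinearOrderedCommGroupWithZero Γ]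
    (v : Valuation F Γ) (n a b : F) (ha : v a = 1) (hb : v b = 1) (h2 : v 2 = 1)
    (hn : ¬ IsSquare (v n)) (h : HasPoint n a b) :
    (∃ g : F, v g ≤ 1 ∧ v (a - g ^ 2) < 1) ∧ ∃ g : F, v g ≤ 1 ∧ v (b - g ^ 2) < 1 := by
  obtain ⟨X, Y, Z, W, hne, e1, e2⟩ := h
  have ha0 : a ≠ 0 := by
    intro h0
    rw [h0, map_zero] at ha
    exact zero_ne_one ha
  have hb0 : b ≠ 0 := by
    intro h0
    rw [h0, map_zero] at hb
    exact zero_ne_one hb
  have hone : ∀ x : F, (v x) ^ 2 = 1 → v x = 1 := fun x hx =>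
    (pow_eq_one_iff_of_nonneg zero_le two_ne_zero).1 hx
  by_cases hW : W = 0
  · subst hW
    have hX : X ≠ 0 := by
      intro hX
      subst hX
      have hY : Y = 0 := by
        have : b * Y ^ 2 = 0 := by rw [e1]; ring
        rcases mul_eq_zero.1 this with h | h
        · exact absurd h hb0
        · exact pow_eq_zero_iff (two_ne_zero) |>.1 h
      have hZ : Z = 0 := by
        have : a * b * Z ^ 2 = 0 := by rw [e2]; ring
        rcases mul_eq_zero.1 this with h | h
        · exact absurd h (mul_ne_zero ha0 hb0)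
        · exact pow_eq_zero_iff (two_ne_zero) |>.1 h
      simp [hY, hZ] at hne
    have hbZ : b * Z ^ 2 = X ^ 2 := by
      apply mul_left_cancel₀ ha0
      linear_combination e2
    have hZ : Z ≠ 0 := by
      intro hZ
      apply hX
      rw [hZ] at hbZ
      have : X ^ 2 = 0 := by rw [← hbZ]; ring
      exact pow_eq_zero_iff (two_ne_zero) |>.1 this
    have haZ : a * Z ^ 2 = Y ^ 2 := by
      apply mul_left_cancel₀ hb0
      linear_combination e2 - e1
    have hg : (Y / Z) ^ 2 = a := by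
      rw [div_pow, div_eq_iff (pow_ne_zero 2 hZ), haZ]
    have hh : (X / Z) ^ 2 = b := by
      rw [div_pow, div_eq_iff (pow_ne_zero 2 hZ), hbZ]
    refine ⟨⟨Y / Z, ?_, ?_⟩, ⟨X / Z, ?_, ?_⟩⟩
    · exact (hone _ (by rw [← map_pow, hg, ha])).le
    · rw [hg, sub_self, map_zero]
      exact zero_lt_one
    · exact (hone _ (by rw [← map_pow, hh, hb])).le
    · rw [hh, sub_self, map_zero]
      exact zero_lt_one
  · have hvW : v W ≠ 0 := (Valuation.ne_zero_iff v).2 hW
    have hns : ¬ IsSquare (v (n * W ^ 2)) := by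
      rintro ⟨s, hs⟩
      apply hn
      refine ⟨s / v W, ?_⟩
      rw [map_mul, map_pow] at hs
      rw [div_mul_div_comm, eq_div_iff (mul_ne_zero hvW hvW), ← hs, pow_two]
    have vX : v (a * X ^ 2) = v X ^ 2 := by rw [map_mul, map_pow, ha, one_mul]
    have vY : v (b * Y ^ 2) = v Y ^ 2 := by rw [map_mul, map_pow, hb, one_mul]
    have vZ : v (a * b * Z ^ 2) = v Z ^ 2 := by
      rw [map_mul, map_mul, map_pow, ha, hb, one_mul, one_mul]
    rcases lt_trichotomy (v (a * X ^ 2)) (v (n * W ^ 2)) with hlt | heq | hgt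
    · exfalso
      apply hns
      have : v (b * Y ^ 2) = v (n * W ^ 2) := by
        rw [e1]
        exact Valuation.map_sub_eq_of_lt_right v hlt
      rw [← this, vY]
      exact ⟨v Y, pow_two _⟩
    · exfalso
      apply hns
      rw [← heq, vX]
      exact ⟨v X, pow_two _⟩
    · have h1 : v (b * Y ^ 2) = v (a * X ^ 2) := by
        rw [e1]
        exact Valuation.map_sub_eq_of_lt_left v hgt
      have h3 : v (a * b * Z ^ 2) = v (a * X ^ 2) := by
        rw [e2]
        exact Valuation.map_add_eq_of_lt_left v hgt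
      have hX0 : v (a * X ^ 2) ≠ 0 := ne_of_gt (lt_of_le_of_lt zero_le hgt)
      have hZ2 : v Z ^ 2 ≠ 0 := by
        rw [← vZ, h3]
        exact hX0
      have hYZ : v Y ^ 2 = v Z ^ 2 := by rw [← vY, ← vZ, h1, h3]
      have hXZ : v X ^ 2 = v Z ^ 2 := by rw [← vX, ← vZ, h3]
      have hZ : Z ≠ 0 := by
        intro hZ
        apply hZ2
        rw [hZ, map_zero]
        exact zero_pow two_ne_zero
      have hlt : v (n * W ^ 2) / v Z ^ 2 < 1 := by
        rw [div_lt_one₀ (lt_of_le_of_ne zero_le (Ne.symm hZ2)), ← vZ, h3]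
        exact hgt
      refine ⟨⟨Y / Z, ?_, ?_⟩, ⟨X / Z, ?_, ?_⟩⟩
      · exact (hone _ (by rw [map_div₀, div_pow, hYZ, div_self hZ2])).le
      · have h4 : a - (Y / Z) ^ 2 = 2 * (n * W ^ 2) / (b * Z ^ 2) := by
          field_simp
          linear_combination e2 - e1
        rw [h4, map_div₀, map_mul v 2, map_mul v b, map_pow v Z, h2, hb, one_mul, one_mul]
        exact hlt
      · exact (hone _ (by rw [map_div₀, div_pow, hXZ, div_self hZ2])).le
      · have h4 : b - (X / Z) ^ 2 = (n * W ^ 2) / (a * Z ^ 2) := by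
          field_simp
          linear_combination e2
        rw [h4, map_div₀, map_mul v a, map_pow v Z, ha, one_mul]
        exact hlt

end Pool.Agent.MP009fd8M
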