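import Mathlib

/-!
MP_009fd8_ag, ManyPrimes, leaf file: the place 2, unit case, for pairs (a, b). Computation in a
local domain whose nonunits are the multiples of 2.
-/

namespace Pool.Agent.MP009fd8M

/-- Pairs of units (a, b) whose covering b Y^2 = a X^2 - n W^2, a b Z^2 = a X^2 + n W^2 has a
primitive point: a = g^2 (1 + 2 t^2) and b = h^2 (1 + 2 (t^4 + (1 + e) t^2 + t)) modulo 4.

Proof. Write n = c^2 (1 + 2 e) + 4 k. From the equations (E) b Y^2 + a b Z^2 = 2 a X^2.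

Case W = 2 w. X is a unit, as otherwise 2 divides b Y^2 and a b Z^2, so Y and Z, against hne.
Then Y^2 b = a X^2 mod 4 and b Z^2 = X^2 mod 4 (a is a unit): Y, Z are units, h = X / Z,
g = Y / Z, t = 0.

Case W unit, X = 2 x. b Y^2 = -n W^2 mod 4 and a b Z^2 = n W^2 mod 4, so Y, Z are units and
a Z^2 = - Y^2 mod 4: g = Y / Z, t = 1 (1 + 2 = -1 mod 4), h = c W / Y
(1 + 2 (1 + (1 + e) + 1) = - (1 + 2 e) mod 4).

Case W and X units. (E) gives: Y unit iff Z unit. If Y and Z are multiples of 2, then 4 divides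
a X^2 - n W^2 and a X^2 + n W^2, so 4 divides 2 n W^2, impossible. So Y and Z are units.
Put P = X Y, R = c W Z, S = P + R.
(i) b (b Y^2 Z^2) = b (X^2 Y^2 + n W^2 Z^2) mod 2: multiply a b Z^2 = a X^2 + n W^2 by b Z^2 and
replace b a Z^2 by 2 a X^2 - b Y^2. As n = c^2 mod 2: b Y^2 Z^2 = S^2 mod 2, so S is a unit.
(ii) t = R / S, g = Y / Z: a Z^2 S^2 - Y^2 S^2 - 2 Y^2 R^2 = 0 mod 4, since b times it is
2 (a X^2 S^2 - b Y^2 S^2 - b Y^2 R^2) = 2 (n W^2 S^2 - b Y^2 c^2 W^2 Z^2) =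
2 c^2 W^2 (S^2 - b Y^2 Z^2) = 0 mod 4.
(iii) h = S / (Y Z): b Y^2 Z^2 = a X^2 Z^2 - n W^2 Z^2 = P^2 (1 + 2 t^2) - R^2 (1 + 2 e) mod 4
by (ii), and with P = S - R, R = t S this is
S^2 (1 - 2 t + 2 t^2 (1 + t)^2 - 2 e t^2) = S^2 (1 + 2 (t^4 + (1 + e) t^2 + t)) mod 4. -/
theorem ring_pair_class {O : Type*} [CommRing O] [IsDomain O] (h20 : (2 : O) ≠ 0)
    (h2u : ¬ IsUnit (2 : O)) (hloc : ∀ x : O, IsUnit x ∨ 2 ∣ x)
    (n a b c e k X Y Z W : O) (ha : IsUnit a) (hb : IsUnit b) (hn : IsUnit n)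
    (hc : IsUnit c) (hne : n = c ^ 2 * (1 + 2 * e) + 4 * k)
    (hprim : ¬ (2 ∣ X ∧ 2 ∣ Y ∧ 2 ∣ Z ∧ 2 ∣ W))
    (h1 : b * Y ^ 2 = a * X ^ 2 - n * W ^ 2) (h3 : a * b * Z ^ 2 = a * X ^ 2 + n * W ^ 2) :
    ∃ t g h : O, IsUnit g ∧ IsUnit h ∧ 4 ∣ a - g ^ 2 * (1 + 2 * t ^ 2) ∧
      4 ∣ b - h ^ 2 * (1 + 2 * (t ^ 4 + (1 + e) * t ^ 2 + t)) := by
  have nd : ∀ x : O, IsUnit x → ¬ 2 ∣ x := fun x hx h => h2u (isUnit_of_dvd_unit h hx)
  have un : ∀ x : O, ¬ 2 ∣ x → IsUnit x := fun x hx => (hloc x).resolve_right hx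
  have sq : ∀ x : O, 2 ∣ x ^ 2 → 2 ∣ x := by
    intro x hx
    rcases hloc x with h | h
    · exact absurd hx (nd _ (h.pow 2))
    · exact h
  have cu : ∀ u d x : O, IsUnit u → d ∣ u * x → d ∣ x := fun u d x hu h => (hu.dvd_mul_left).1 h
  have iu : ∀ x x' : O, x * x' = 1 → IsUnit x' := fun x x' h =>
    IsUnit.of_mul_eq_one x (by rw [mul_comm]; exact h)
  have hE : b * Y ^ 2 + a * b * Z ^ 2 = 2 * (a * X ^ 2) := by linear_combination h1 + h3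
  rcases hloc W with hW | ⟨w, hw⟩
  · rcases hloc X with hX | ⟨x, hx⟩
    · -- W and X units
      have hYZ : ¬ (2 ∣ Y ∧ 2 ∣ Z) := by
        rintro ⟨⟨y, hy⟩, ⟨z, hz⟩⟩
        have h5 : n * W ^ 2 = 2 * (a * b * z ^ 2 - b * y ^ 2) := by
          apply mul_left_cancel₀ h20
          rw [hy] at h1
          rw [hz] at h3
          linear_combination h1 - h3
        exact nd _ (hn.mul (hW.pow 2)) ⟨_, h5⟩
      have hY : IsUnit Y := by
        apply un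
        intro hy
        apply hYZ
        refine ⟨hy, sq _ (cu (a * b) 2 _ (ha.mul hb) ?_)⟩
        have e1 : a * b * Z ^ 2 = 2 * (a * X ^ 2) - Y * (b * Y) := by linear_combination hE
        rw [e1]
        exact dvd_sub (Dvd.intro _ rfl) (Dvd.dvd.mul_right hy _)
      have hZ : IsUnit Z := by
        apply un
        intro hz
        apply hYZ
        refine ⟨sq _ (cu b 2 _ hb ?_), hz⟩
        have e1 : b * Y ^ 2 = 2 * (a * X ^ 2) - Z * (a * b * Z) := by linear_combination hE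
        rw [e1]
        exact dvd_sub (Dvd.intro _ rfl) (Dvd.dvd.mul_right hz _)
      obtain ⟨R, hR⟩ : ∃ R, R = c * W * Z := ⟨_, rfl⟩
      obtain ⟨S, hS⟩ : ∃ S, S = X * Y + R := ⟨_, rfl⟩
      -- (i)
      obtain ⟨m, hm⟩ : 2 ∣ b * Y ^ 2 * Z ^ 2 - X ^ 2 * Y ^ 2 - n * W ^ 2 * Z ^ 2 := by
        refine cu b 2 _ hb ⟨a * b * X ^ 2 * Z ^ 2 - a * X ^ 4 - n * b * W ^ 2 * Z ^ 2, ?_⟩
        linear_combination (b * Z ^ 2 - X ^ 2) * hE - b * Z ^ 2 * h3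
      obtain ⟨m', hm'⟩ : ∃ m', b * Y ^ 2 * Z ^ 2 - S ^ 2 = 2 * m' := by
        refine ⟨m + (c ^ 2 * e + 2 * k) * W ^ 2 * Z ^ 2 - X * Y * R, ?_⟩
        rw [hS, hR]
        linear_combination hm + W ^ 2 * Z ^ 2 * hne
      have hSu : IsUnit S := by
        apply un
        rintro ⟨σ, hσ⟩
        have h5 : b * Y ^ 2 * Z ^ 2 = 2 * (m' + 2 * σ ^ 2) := by
          rw [hσ] at hm'
          linear_combination hm'
        exact nd _ ((hb.mul (hY.pow 2)).mul (hZ.pow 2)) ⟨_, h5⟩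
      obtain ⟨S', hS'⟩ := hSu.exists_right_inv
      obtain ⟨Y', hY'⟩ := hY.exists_right_inv
      obtain ⟨Z', hZ'⟩ := hZ.exists_right_inv
      obtain ⟨t, ht⟩ : ∃ t, t = R * S' := ⟨_, rfl⟩
      have htS : R = t * S := by
        rw [ht]
        linear_combination (-R) * hS'
      -- (ii)
      obtain ⟨q, hq⟩ : 4 ∣ a * Z ^ 2 * S ^ 2 - Y ^ 2 * S ^ 2 - 2 * (Y ^ 2 * R ^ 2) := by
        refine cu b 4 _ hb ⟨W ^ 2 * ((c ^ 2 * e + 2 * k) * S ^ 2 - c ^ 2 * m'), ?_⟩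
        have e1 : R ^ 2 = c ^ 2 * W ^ 2 * Z ^ 2 := by rw [hR]; ring
        rw [e1]
        linear_combination S ^ 2 * hE - 2 * S ^ 2 * h1 - 2 * c ^ 2 * W ^ 2 * hm' +
          2 * W ^ 2 * S ^ 2 * hne
      obtain ⟨q', hq'⟩ : ∃ q', a * Z ^ 2 - Y ^ 2 * (1 + 2 * t ^ 2) = 4 * q' := by
        refine ⟨q * S' ^ 2, ?_⟩
        have e2 : S ^ 2 * S' ^ 2 = 1 := by rw [← mul_pow, hS', one_pow]
        rw [htS] at hq
        linear_combination S' ^ 2 * hq + (-(a * Z ^ 2) + Y ^ 2 + 2 * Y ^ 2 * t ^ 2) * e2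
      have eY : Y ^ 2 * Y' ^ 2 = 1 := by rw [← mul_pow, hY', one_pow]
      have eZ : Z ^ 2 * Z' ^ 2 = 1 := by rw [← mul_pow, hZ', one_pow]
      refine ⟨t, Y * Z', S * Y' * Z', hY.mul (iu _ _ hZ'), (hSu.mul (iu _ _ hY')).mul (iu _ _ hZ'),
        ⟨q' * Z' ^ 2, ?_⟩, ?_⟩
      · linear_combination Z' ^ 2 * hq' - a * eZ
      · -- (iii)
        obtain ⟨p, hp⟩ : ∃ p, b * Y ^ 2 * Z ^ 2 -
            S ^ 2 * (1 + 2 * (t ^ 4 + (1 + e) * t ^ 2 + t)) = 4 * p := by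
          refine ⟨X ^ 2 * q' - k * W ^ 2 * Z ^ 2 - S ^ 2 * (t + e * t ^ 2 + t ^ 3), ?_⟩
          have e3 : X * Y = S - t * S := by
            rw [← htS, hS]
            ring
          have e4 : c * W * Z = t * S := by rw [← htS, hR]
          have e5 : X ^ 2 * Y ^ 2 = (S - t * S) ^ 2 := by rw [← mul_pow, e3]
          have e6 : c ^ 2 * W ^ 2 * Z ^ 2 = (t * S) ^ 2 := by rw [← mul_pow, ← mul_pow, e4]
          linear_combination Z ^ 2 * h1 + X ^ 2 * hq' - W ^ 2 * Z ^ 2 * hne +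
            (1 + 2 * t ^ 2) * e5 - (1 + 2 * e) * e6
        refine ⟨p * Y' ^ 2 * Z' ^ 2, ?_⟩
        linear_combination Y' ^ 2 * Z' ^ 2 * hp - b * Z ^ 2 * Z' ^ 2 * eY - b * eZ
    · -- W unit, X = 2 x
      have hY : IsUnit Y := by
        apply un
        rintro ⟨y, hy⟩
        have h5 : n * W ^ 2 = 2 * (2 * a * x ^ 2 - 2 * b * y ^ 2) := by
          rw [hx, hy] at h1
          linear_combination h1
        exact nd _ (hn.mul (hW.pow 2)) ⟨_, h5⟩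
      have hZ : IsUnit Z := by
        apply un
        rintro ⟨z, hz⟩
        have h5 : n * W ^ 2 = 2 * (2 * a * b * z ^ 2 - 2 * a * x ^ 2) := by
          rw [hx, hz] at h3
          linear_combination -h3
        exact nd _ (hn.mul (hW.pow 2)) ⟨_, h5⟩
      obtain ⟨Y', hY'⟩ := hY.exists_right_inv
      obtain ⟨Z', hZ'⟩ := hZ.exists_right_inv
      have eY : Y ^ 2 * Y' ^ 2 = 1 := by rw [← mul_pow, hY', one_pow]
      have eZ : Z ^ 2 * Z' ^ 2 = 1 := by rw [← mul_pow, hZ', one_pow]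
      obtain ⟨q, hq⟩ : 4 ∣ a * Z ^ 2 + Y ^ 2 := by
        refine cu b 4 _ hb ⟨2 * (a * x ^ 2), ?_⟩
        rw [hx] at hE
        linear_combination hE
      refine ⟨1, Y * Z', c * W * Y', hY.mul (iu _ _ hZ'), (hc.mul hW).mul (iu _ _ hY'),
        ⟨(q - Y ^ 2) * Z' ^ 2, ?_⟩, ⟨(a * x ^ 2 - k * W ^ 2 - c ^ 2 * W ^ 2 * (2 + e)) * Y' ^ 2, ?_⟩⟩
      · linear_combination Z' ^ 2 * hq - a * eZ
      · rw [hx] at h1
        linear_combination Y' ^ 2 * h1 - b * eY - Y' ^ 2 * W ^ 2 * hne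
  · -- W = 2 w
    have hX : IsUnit X := by
      apply un
      intro hx
      obtain ⟨x, hx'⟩ := hx
      apply hprim
      refine ⟨⟨x, hx'⟩, sq _ (cu b 2 _ hb ⟨2 * a * x ^ 2 - 2 * n * w ^ 2, ?_⟩),
        sq _ (cu (a * b) 2 _ (ha.mul hb) ⟨2 * a * x ^ 2 + 2 * n * w ^ 2, ?_⟩), ⟨w, hw⟩⟩
      · rw [h1, hx', hw]; ring
      · rw [h3, hx', hw]; ring
    obtain ⟨q, hq⟩ : 4 ∣ b * Z ^ 2 - X ^ 2 := by
      refine cu a 4 _ ha ⟨n * w ^ 2, ?_⟩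
      rw [hw] at h3
      linear_combination h3
    obtain ⟨q', hq'⟩ : 4 ∣ a * Z ^ 2 - Y ^ 2 := by
      refine cu b 4 _ hb ⟨2 * (n * w ^ 2), ?_⟩
      rw [hw] at h1 h3
      linear_combination h3 - h1
    have hZ : IsUnit Z := by
      apply un
      rintro ⟨z, hz⟩
      have h5 : X ^ 2 = 2 * (2 * b * z ^ 2 - 2 * q) := by
        rw [hz] at hq
        linear_combination -hq
      exact nd _ (hX.pow 2) ⟨_, h5⟩
    have hY : IsUnit Y := by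
      apply un
      rintro ⟨y, hy⟩
      have h5 : a * Z ^ 2 = 2 * (2 * y ^ 2 + 2 * q') := by
        rw [hy] at hq'
        linear_combination hq'
      exact nd _ (ha.mul (hZ.pow 2)) ⟨_, h5⟩
    obtain ⟨Z', hZ'⟩ := hZ.exists_right_inv
    have eZ : Z ^ 2 * Z' ^ 2 = 1 := by rw [← mul_pow, hZ', one_pow]
    refine ⟨0, Y * Z', X * Z', hY.mul (iu _ _ hZ'), hX.mul (iu _ _ hZ'),
      ⟨q' * Z' ^ 2, ?_⟩, ⟨q * Z' ^ 2, ?_⟩⟩
    · linear_combination Z' ^ 2 * hq' - a * eZ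
    · linear_combination Z' ^ 2 * hq - b * eZ

end Pool.Agent.MP009fd8M
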