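import Pool.Agent.Lib.MP_009fd8_ag.Def
import Pool.Agent.Lib.MP_009fd8_agM.Ring2

/-!
MP_009fd8_ag, ManyPrimes: the place 2, unit case, for pairs (a, b).
-/

namespace Pool.Agent.MP009fd8M

open Pool.Agent.MP009fd8

variable {F : Type*} [Field F] {Γ : Type*} [LinearOrderedCommGroupWithZero Γ]

private theorem exists_max_val (v : Valuation F Γ) (X Y Z W : F)
    (h : X ≠ 0 ∨ Y ≠ 0 ∨ Z ≠ 0 ∨ W ≠ 0) :
    ∃ M : F, M ≠ 0 ∧ (M = X ∨ M = Y ∨ M = Z ∨ M = W) ∧ v X ≤ v M ∧ v Y ≤ v M ∧ v Z ≤ v M ∧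
      v W ≤ v M := by
  classical
  obtain ⟨M, hM, hmax⟩ := Finset.exists_max_image ({X, Y, Z, W} : Finset F) v ⟨X, by simp⟩
  have hX : v X ≤ v M := hmax X (by simp)
  have hY : v Y ≤ v M := hmax Y (by simp)
  have hZ : v Z ≤ v M := hmax Z (by simp)
  have hW : v W ≤ v M := hmax W (by simp)
  refine ⟨M, ?_, by simpa using hM, hX, hY, hZ, hW⟩
  rintro rfl
  rw [map_zero, le_zero_iff, Valuation.zero_iff] at hX hY hZ hW
  rcases h with h | h | h | h
  · exact h hX
  · exact h hY
  · exact h hZ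
  · exact h hW

/-- At the place 2, unramified (hmax: v(2) is the largest value below 1), a, b and n units,
n = c^2 (1 + 2 e) modulo 4 with c a unit: if C_(a,b) has a point then a = g^2 (1 + 2 t^2) and
b = h^2 (1 + 2 (t^4 + (1 + e) t^2 + t)) modulo 4. -/
theorem pair_class_at_two (v : Valuation F Γ) (n a b c e : F) (h2 : v 2 < 1) (h20 : (2 : F) ≠ 0)
    (hmax : ∀ x : F, v x < 1 → v x ≤ v 2)
    (hn : v n = 1) (ha : v a = 1) (hb : v b = 1) (hc : v c = 1) (he : v e ≤ 1)
    (hne : v (n - c ^ 2 * (1 + 2 * e)) ≤ v 4) (h : HasPoint n a b) :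
    ∃ t g h : F, v t ≤ 1 ∧ v g = 1 ∧ v h = 1 ∧ v (a - g ^ 2 * (1 + 2 * t ^ 2)) ≤ v 4 ∧
      v (b - h ^ 2 * (1 + 2 * (t ^ 4 + (1 + e) * t ^ 2 + t))) ≤ v 4 := by
  have h40 : (4 : F) ≠ 0 := by
    have : (4 : F) = 2 * 2 := by norm_num
    rw [this]; exact mul_ne_zero h20 h20
  have hv2 : v 2 ≠ 0 := (Valuation.ne_zero_iff v).2 h20
  have hv4 : v 4 ≠ 0 := (Valuation.ne_zero_iff v).2 h40
  obtain ⟨X, Y, Z, W, hne', h1, h3⟩ := h
  obtain ⟨M, hM0, hM, hX, hY, hZ, hW⟩ := exists_max_val v X Y Z W hne'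
  have hvM : 0 < v M := zero_lt_iff.2 ((Valuation.ne_zero_iff v).2 hM0)
  have hdiv : ∀ x : F, v x ≤ v M → v (x / M) ≤ 1 := by
    intro x hx
    rw [map_div₀]
    exact (div_le_one₀ hvM).2 hx
  have hk : v ((n - c ^ 2 * (1 + 2 * e)) / 4) ≤ 1 := by
    rw [map_div₀]
    exact (div_le_one₀ (zero_lt_iff.2 hv4)).2 hne
  have unit_of : ∀ x : v.integer, v (x : F) = 1 → IsUnit x := by
    intro x hx
    have hx0 : (x : F) ≠ 0 := by
      intro h0
      rw [h0, map_zero] at hx
      exact zero_ne_one hx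
    refine IsUnit.of_mul_eq_one (⟨(x : F)⁻¹, ?_⟩ : v.integer) ?_
    · rw [Valuation.mem_integer_iff, map_inv₀, hx, inv_one]
    · apply Subtype.ext
      simp [hx0]
  have val_of_unit : ∀ x : v.integer, IsUnit x → v (x : F) = 1 := by
    intro x hx
    obtain ⟨y, hy⟩ := hx.exists_right_inv
    have e1 : v (x : F) * v (y : F) = 1 := by
      rw [← map_mul]
      have := congrArg (fun t : v.integer => v (t : F)) hy
      simpa using this
    apply le_antisymm x.2
    by_contra hlt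
    rw [not_le] at hlt
    have : v (x : F) * v (y : F) < 1 := by
      calc v (x : F) * v (y : F) ≤ v (x : F) * 1 := by
            exact mul_le_mul_right y.2 _
        _ < 1 := by rw [mul_one]; exact hlt
    exact (ne_of_lt this) e1
  have two_dvd : ∀ x : v.integer, v (x : F) < 1 → 2 ∣ x := by
    intro x hx
    refine ⟨⟨(x : F) / 2, ?_⟩, ?_⟩
    · rw [Valuation.mem_integer_iff, map_div₀]
      exact (div_le_one₀ (zero_lt_iff.2 hv2)).2 (hmax _ hx)
    · apply Subtype.ext
      simp only [Subring.coe_mul]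
      rw [show ((2 : v.integer) : F) = 2 from rfl]
      field_simp
  have lt_of_dvd : ∀ x : v.integer, 2 ∣ x → v (x : F) < 1 := by
    rintro x ⟨t, rfl⟩
    simp only [Subring.coe_mul, map_mul]
    rw [show ((2 : v.integer) : F) = 2 from rfl]
    calc v 2 * v (t : F) ≤ v 2 * 1 := mul_le_mul_right t.2 _
      _ < 1 := by rw [mul_one]; exact h2
  have le4_of_dvd : ∀ x : v.integer, 4 ∣ x → v (x : F) ≤ v 4 := by
    rintro x ⟨t, rfl⟩
    simp only [Subring.coe_mul, map_mul]
    rw [show ((4 : v.integer) : F) = 4 from rfl]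
    calc v 4 * v (t : F) ≤ v 4 * 1 := mul_le_mul_right t.2 _
      _ = v 4 := mul_one _
  have key := ring_pair_class (O := v.integer)
    (fun h => h20 (congrArg (fun t : v.integer => (t : F)) h))
    (fun h => by
      have := val_of_unit _ h
      rw [show ((2 : v.integer) : F) = 2 from rfl] at this
      exact (ne_of_lt h2) this)
    (fun x => by
      rcases lt_or_eq_of_le x.2 with hx | hx
      · exact Or.inr (two_dvd x hx)
      · exact Or.inl (unit_of x hx))
    ⟨n, hn.le⟩ ⟨a, ha.le⟩ ⟨b, hb.le⟩ ⟨c, hc.le⟩ ⟨e, he⟩ ⟨_, hk⟩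
    ⟨X / M, hdiv X hX⟩ ⟨Y / M, hdiv Y hY⟩ ⟨Z / M, hdiv Z hZ⟩ ⟨W / M, hdiv W hW⟩
    (unit_of _ ha) (unit_of _ hb) (unit_of _ hn) (unit_of _ hc)
    (by
      apply Subtype.ext
      simp only [Subring.coe_mul, Subring.coe_add, Subring.coe_pow, Subring.coe_one]
      rw [show ((2 : v.integer) : F) = 2 from rfl, show ((4 : v.integer) : F) = 4 from rfl]
      field_simp
      ring)
    (by
      rintro ⟨d1, d2, d3, d4⟩
      have l1 : v (X / M) < 1 := lt_of_dvd _ d1
      have l2 : v (Y / M) < 1 := lt_of_dvd _ d2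
      have l3 : v (Z / M) < 1 := lt_of_dvd _ d3
      have l4 : v (W / M) < 1 := lt_of_dvd _ d4
      have hMM : v (M / M) = 1 := by rw [div_self hM0, map_one]
      rcases hM with hM | hM | hM | hM
      · rw [← hM] at l1; exact (ne_of_lt l1) hMM
      · rw [← hM] at l2; exact (ne_of_lt l2) hMM
      · rw [← hM] at l3; exact (ne_of_lt l3) hMM
      · rw [← hM] at l4; exact (ne_of_lt l4) hMM)
    (by
      apply Subtype.ext
      simp only [Subring.coe_mul, AddSubgroupClass.coe_sub, Subring.coe_pow]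
      field_simp
      linear_combination h1)
    (by
      apply Subtype.ext
      simp only [Subring.coe_mul, Subring.coe_add, Subring.coe_pow]
      field_simp
      linear_combination h3)
  obtain ⟨t, g, h, hg, hh, hag, hbh⟩ := key
  refine ⟨(t : F), (g : F), (h : F), t.2, val_of_unit g hg, val_of_unit h hh, ?_, ?_⟩
  · have := le4_of_dvd _ hag
    simp only [Subring.coe_mul, AddSubgroupClass.coe_sub, Subring.coe_add, Subring.coe_pow,
      Subring.coe_one] at this
    rw [show ((2 : v.integer) : F) = 2 from rfl] at this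
    exact this
  · have := le4_of_dvd _ hbh
    simp only [Subring.coe_mul, AddSubgroupClass.coe_sub, Subring.coe_add, Subring.coe_pow,
      Subring.coe_one] at this
    rw [show ((2 : v.integer) : F) = 2 from rfl] at this
    exact this

end Pool.Agent.MP009fd8M
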