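import Pool.Agent.Lib.MP_009fd8_ag.Places
import Pool.Agent.Lib.MP_009fd8_ag.Approx
import Pool.Agent.Lib.MP_009fd8_agM.At2
import Pool.Agent.Lib.MP_009fd8_agM.AtL

/-!
MP_009fd8_ag, ManyPrimes: from the completions to congruences in the ring of integers.
-/

namespace Pool.Agent.MP009fd8M

open IsDedekindDomain NumberField WithZero Pool.Agent.MP009fd8

variable {K : Type*} [Field K] [NumberField K]

theorem val_int_le_one (v : HeightOneSpectrum (𝓞 K)) (m : 𝓞 K) :
    Valued.v (algebraMap K (v.adicCompletion K) (algebraMap (𝓞 K) K m)) ≤ 1 := by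
  rw [val_completion]; exact v.valuation_le_one m

theorem val_int_eq_one {v : HeightOneSpectrum (𝓞 K)} {m : 𝓞 K} (h : m ∉ v.asIdeal) :
    Valued.v (algebraMap K (v.adicCompletion K) (algebraMap (𝓞 K) K m)) = 1 := by
  rw [val_completion]; exact val_eq_one v h

/-- An integer that is close to a square of the completion is a square modulo the place. -/
theorem exists_sq_mod {v : HeightOneSpectrum (𝓞 K)} {D : 𝓞 K} {g : v.adicCompletion K}
    (hg1 : Valued.v g ≤ 1)
    (hg : Valued.v (algebraMap K (v.adicCompletion K) (algebraMap (𝓞 K) K D) - g ^ 2) < 1) :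
    ∃ m : 𝓞 K, D - m ^ 2 ∈ v.asIdeal := by
  obtain ⟨m, hm⟩ := exists_int_sub_lt v g hg1 1 one_pos
  refine ⟨m, ?_⟩
  rw [← v.valuation_lt_one_iff_mem (K := K), ← val_completion]
  have hexp : algebraMap K (v.adicCompletion K) (algebraMap (𝓞 K) K (D - m ^ 2)) =
      (algebraMap K (v.adicCompletion K) (algebraMap (𝓞 K) K D) - g ^ 2) +
      (g - algebraMap K (v.adicCompletion K) (algebraMap (𝓞 K) K m)) *
        (g + algebraMap K (v.adicCompletion K) (algebraMap (𝓞 K) K m)) := by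
    simp only [map_sub, map_pow]; ring
  rw [hexp]
  refine Valuation.map_add_lt _ hg ?_
  rw [map_mul]
  calc _ ≤ Valued.v (g - algebraMap K (v.adicCompletion K) (algebraMap (𝓞 K) K m)) * 1 := by
        gcongr
        exact Valuation.map_add_le _ hg1 (val_int_le_one v m)
    _ < 1 := by rw [mul_one]; exact hm

/-- At a prime element p dividing n exactly: if the covering of a pair of integers prime to p
has a point, then both are squares modulo p. -/
theorem sq_mod_of_hasPoint (p : 𝓞 K) (hp : Prime p) (h2 : ¬ p ∣ 2) (n : K)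
    (hn : ¬ IsSquare ((placeOf p hp).valuation K n)) (D D' : 𝓞 K) (hD : ¬ p ∣ D)
    (hD' : ¬ p ∣ D')
    (h : HasPoint (algebraMap K ((placeOf p hp).adicCompletion K) n)
      (algebraMap K ((placeOf p hp).adicCompletion K) (algebraMap (𝓞 K) K D))
      (algebraMap K ((placeOf p hp).adicCompletion K) (algebraMap (𝓞 K) K D'))) :
    (∃ m : 𝓞 K, p ∣ D - m ^ 2) ∧ ∃ m : 𝓞 K, p ∣ D' - m ^ 2 := by
  have h20 : (algebraMap (𝓞 K) K 2) = 2 := map_ofNat _ _
  obtain ⟨⟨g, hg1, hg⟩, ⟨g', hg1', hg'⟩⟩ := squares_at_l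
    (Valued.v : Valuation ((placeOf p hp).adicCompletion K) _) _ _ _
    (val_int_eq_one (by rw [mem_placeOf]; exact hD))
    (val_int_eq_one (by rw [mem_placeOf]; exact hD'))
    (by
      rw [← map_ofNat (algebraMap K ((placeOf p hp).adicCompletion K)) 2, val_completion, ← h20]
      apply val_eq_one
      rw [mem_placeOf]
      exact h2)
    (by rw [val_completion]; exact hn) h
  obtain ⟨m, hm⟩ := exists_sq_mod hg1 hg
  obtain ⟨m', hm'⟩ := exists_sq_mod hg1' hg'
  rw [mem_placeOf] at hm hm'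
  exact ⟨⟨m, hm⟩, ⟨m', hm'⟩⟩

/-- At the place 2: if the covering of a pair of odd integers has a point, then the pair
satisfies the congruences modulo 4. -/
theorem class_of_hasPoint (h2 : Prime (2 : 𝓞 K)) (n c e : 𝓞 K) (hn : ¬ 2 ∣ n)
    (hne : 4 ∣ n - c ^ 2 * (1 + 2 * e)) (D D' : 𝓞 K) (hD : ¬ 2 ∣ D) (hD' : ¬ 2 ∣ D')
    (h : HasPoint (algebraMap K ((placeOf 2 h2).adicCompletion K) (algebraMap (𝓞 K) K n))
      (algebraMap K ((placeOf 2 h2).adicCompletion K) (algebraMap (𝓞 K) K D))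
      (algebraMap K ((placeOf 2 h2).adicCompletion K) (algebraMap (𝓞 K) K D'))) :
    ∃ t g h : 𝓞 K, ¬ 2 ∣ g ∧ ¬ 2 ∣ h ∧ 4 ∣ D - g ^ 2 * (1 + 2 * t ^ 2) ∧
      4 ∣ D' - h ^ 2 * (1 + 2 * (t ^ 4 + (1 + e) * t ^ 2 + t)) := by
  have h20 : (algebraMap (𝓞 K) K 2) = 2 := map_ofNat _ _
  obtain ⟨v, hvdef⟩ : ∃ v, v = placeOf 2 h2 := ⟨_, rfl⟩
  rw [← hvdef] at h
  have hv2 : (Valued.v : Valuation (v.adicCompletion K) _) 2 = exp (-1 : ℤ) := by
    rw [← map_ofNat (algebraMap K (v.adicCompletion K)) 2, val_completion, ← h20, hvdef]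
    exact val_self h2
  have hK20 : (2 : v.adicCompletion K) ≠ 0 := by
    rw [← map_ofNat (algebraMap K (v.adicCompletion K)) 2]
    exact (map_ne_zero _).mpr two_ne_zero
  have hK2lt : (Valued.v : Valuation (v.adicCompletion K) _) 2 < 1 := by
    rw [hv2, ← exp_zero, exp_lt_exp]; norm_num
  have hmaxv : ∀ x : v.adicCompletion K, Valued.v x < 1 →
      Valued.v x ≤ (Valued.v : Valuation (v.adicCompletion K) _) 2 :=
    fun x hx => by rw [hv2]; exact le_of_lt_one hx
  have hmem : ∀ {r : 𝓞 K}, ¬ 2 ∣ r → r ∉ v.asIdeal := by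
    intro r hr
    rw [hvdef, mem_placeOf]; exact hr
  have hc : ¬ (2 : 𝓞 K) ∣ c := by
    intro hc
    apply hn
    have h1 : (2 : 𝓞 K) ∣ n - c ^ 2 * (1 + 2 * e) := dvd_trans ⟨2, by norm_num⟩ hne
    have h3 : (2 : 𝓞 K) ∣ c ^ 2 * (1 + 2 * e) :=
      dvd_mul_of_dvd_left (dvd_pow hc two_ne_zero) _
    have := dvd_add h1 h3
    simpa using this
  obtain ⟨T, G, H, hT1, hG1, hH1, hGD, hHD⟩ := pair_class_at_two
    (Valued.v : Valuation (v.adicCompletion K) _)
    (algebraMap K (v.adicCompletion K) (algebraMap (𝓞 K) K n))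
    (algebraMap K (v.adicCompletion K) (algebraMap (𝓞 K) K D))
    (algebraMap K (v.adicCompletion K) (algebraMap (𝓞 K) K D'))
    (algebraMap K (v.adicCompletion K) (algebraMap (𝓞 K) K c))
    (algebraMap K (v.adicCompletion K) (algebraMap (𝓞 K) K e))
    hK2lt hK20 hmaxv (val_int_eq_one (hmem hn)) (val_int_eq_one (hmem hD))
    (val_int_eq_one (hmem hD')) (val_int_eq_one (hmem hc)) (val_int_le_one v e)
    (by
      have h4 := val_le_of_four_dvd (K := K) v hne
      have e1 : algebraMap K (v.adicCompletion K) (algebraMap (𝓞 K) K n) -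
          algebraMap K (v.adicCompletion K) (algebraMap (𝓞 K) K c) ^ 2 *
            (1 + 2 * algebraMap K (v.adicCompletion K) (algebraMap (𝓞 K) K e)) =
          algebraMap K (v.adicCompletion K) (algebraMap (𝓞 K) K
            (n - c ^ 2 * (1 + 2 * e))) := by
        simp only [map_sub, map_mul, map_add, map_pow, map_one, map_ofNat]
      rw [e1, ← map_ofNat (algebraMap K (v.adicCompletion K)) 4, val_completion,
        val_completion]
      exact h4)
    h
  have h40 : (0 : WithZero (Multiplicative ℤ)) <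
      (Valued.v : Valuation (v.adicCompletion K) _) 4 := by
    have h4K : (4 : K) ≠ 0 := by norm_num
    have : (algebraMap K (v.adicCompletion K)) 4 ≠ 0 := (map_ne_zero _).mpr h4K
    rw [map_ofNat] at this
    exact zero_lt_iff.mpr ((Valuation.ne_zero_iff _).mpr this)
  have e5 : (4 : v.adicCompletion K) = 2 * 2 := by norm_num
  have h4lt : (Valued.v : Valuation (v.adicCompletion K) _) 4 < 1 := by
    rw [e5, map_mul]
    calc _ ≤ (Valued.v : Valuation (v.adicCompletion K) _) 2 * 1 := by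
          gcongr
      _ < 1 := by rw [mul_one]; exact hK2lt
  obtain ⟨t, ht⟩ := exists_int_sub_lt v T hT1 1 one_pos
  obtain ⟨g, hg⟩ := exists_int_sub_lt v G hG1.le _ h40
  obtain ⟨k, hk⟩ := exists_int_sub_lt v H hH1.le _ h40
  obtain ⟨T', hT'def⟩ : ∃ M, M = algebraMap K (v.adicCompletion K) (algebraMap (𝓞 K) K t) :=
    ⟨_, rfl⟩
  obtain ⟨G', hG'def⟩ : ∃ M, M = algebraMap K (v.adicCompletion K) (algebraMap (𝓞 K) K g) :=
    ⟨_, rfl⟩
  obtain ⟨H', hH'def⟩ : ∃ M, M = algebraMap K (v.adicCompletion K) (algebraMap (𝓞 K) K k) :=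
    ⟨_, rfl⟩
  obtain ⟨E, hEdef⟩ : ∃ E, E = algebraMap K (v.adicCompletion K) (algebraMap (𝓞 K) K e) :=
    ⟨_, rfl⟩
  have hT'1 : Valued.v T' ≤ 1 := by rw [hT'def]; exact val_int_le_one v t
  have hG'1 : Valued.v G' ≤ 1 := by rw [hG'def]; exact val_int_le_one v g
  have hH'1 : Valued.v H' ≤ 1 := by rw [hH'def]; exact val_int_le_one v k
  have hE1 : Valued.v E ≤ 1 := by rw [hEdef]; exact val_int_le_one v e
  rw [← hT'def] at ht
  rw [← hG'def] at hg
  rw [← hH'def] at hk
  rw [← hEdef] at hHD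
  have hV2 : Valued.v (2 : v.adicCompletion K) ≤ 1 := hK2lt.le
  have hnd : ∀ (r : 𝓞 K) (x : v.adicCompletion K), Valued.v x = 1 →
      Valued.v (x - algebraMap K (v.adicCompletion K) (algebraMap (𝓞 K) K r)) <
        (Valued.v : Valuation (v.adicCompletion K) _) 4 → ¬ 2 ∣ r := by
    intro r x hx hxr hdvd
    have h5 : Valued.v (algebraMap K (v.adicCompletion K) (algebraMap (𝓞 K) K r)) < 1 := by
      rw [val_completion, v.valuation_lt_one_iff_mem, hvdef, mem_placeOf]
      exact hdvd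
    have h6 : Valued.v x < 1 := by
      have : x = (x - algebraMap K (v.adicCompletion K) (algebraMap (𝓞 K) K r)) +
        algebraMap K (v.adicCompletion K) (algebraMap (𝓞 K) K r) := by ring
      rw [this]
      exact Valuation.map_add_lt _ (lt_trans hxr h4lt) h5
    exact (ne_of_lt h6) hx
  have hdvd4 : ∀ r : 𝓞 K, Valued.v (algebraMap K (v.adicCompletion K) (algebraMap (𝓞 K) K r)) ≤
      (Valued.v : Valuation (v.adicCompletion K) _) 4 → 4 ∣ r := by
    intro r hr
    apply four_dvd_of_val h2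
    rw [← hvdef, ← val_completion, ← val_completion, map_ofNat]
    exact hr
  have h8 : Valued.v (2 * (T - T')) ≤ (Valued.v : Valuation (v.adicCompletion K) _) 4 := by
    rw [e5, map_mul, map_mul]
    gcongr
    exact hmaxv _ ht
  have hTT : Valued.v (T + T') ≤ 1 := Valuation.map_add_le _ hT1 hT'1
  have hT2 : Valued.v (T ^ 2) ≤ 1 := by rw [map_pow]; exact pow_le_one' hT1 2
  have hT'2 : Valued.v (T' ^ 2) ≤ 1 := by rw [map_pow]; exact pow_le_one' hT'1 2
  have hT4 : Valued.v (T ^ 4) ≤ 1 := by rw [map_pow]; exact pow_le_one' hT1 4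
  have h1E : Valued.v (1 + E) ≤ 1 := Valuation.map_add_le _ (by rw [map_one]) hE1
  have hmul : ∀ x y : v.adicCompletion K, Valued.v x ≤ 1 → Valued.v y ≤ 1 →
      Valued.v (x * y) ≤ 1 := by
    intro x y hx hy
    rw [map_mul]; exact mul_le_one' hx hy
  have hmul4 : ∀ x y : v.adicCompletion K,
      Valued.v x ≤ (Valued.v : Valuation (v.adicCompletion K) _) 4 → Valued.v y ≤ 1 →
      Valued.v (x * y) ≤ (Valued.v : Valuation (v.adicCompletion K) _) 4 := by
    intro x y hx hy
    rw [map_mul]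
    calc _ ≤ (Valued.v : Valuation (v.adicCompletion K) _) 4 * 1 := mul_le_mul' hx hy
      _ = _ := mul_one _
  refine ⟨t, g, k, hnd g G hG1 (by rw [← hG'def]; exact hg),
    hnd k H hH1 (by rw [← hH'def]; exact hk), ?_, ?_⟩
  · apply hdvd4
    have e7 : algebraMap K (v.adicCompletion K) (algebraMap (𝓞 K) K
        (D - g ^ 2 * (1 + 2 * t ^ 2))) =
        (algebraMap K (v.adicCompletion K) (algebraMap (𝓞 K) K D)
          - G ^ 2 * (1 + 2 * T ^ 2)) +
        ((G - G') * ((G + G') * (1 + 2 * T ^ 2)) + 2 * (T - T') * (G' ^ 2 * (T + T'))) := by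
      simp only [map_sub, map_mul, map_add, map_pow, map_one, map_ofNat, ← hG'def, ← hT'def]
      ring
    rw [e7]
    refine Valuation.map_add_le _ hGD (Valuation.map_add_le _ ?_ ?_)
    · refine hmul4 _ _ hg.le (hmul _ _ (Valuation.map_add_le _ hG1.le hG'1) ?_)
      exact Valuation.map_add_le _ (by rw [map_one]) (hmul _ _ hV2 hT2)
    · refine hmul4 _ _ h8 (hmul _ _ ?_ hTT)
      rw [map_pow]; exact pow_le_one' hG'1 2
  · apply hdvd4
    have e7 : algebraMap K (v.adicCompletion K) (algebraMap (𝓞 K) K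
        (D' - k ^ 2 * (1 + 2 * (t ^ 4 + (1 + e) * t ^ 2 + t)))) =
        (algebraMap K (v.adicCompletion K) (algebraMap (𝓞 K) K D')
          - H ^ 2 * (1 + 2 * (T ^ 4 + (1 + E) * T ^ 2 + T))) +
        ((H - H') * ((H + H') * (1 + 2 * (T ^ 4 + (1 + E) * T ^ 2 + T))) +
          2 * (T - T') * (H' ^ 2 * ((T + T') * (T ^ 2 + T' ^ 2) + (1 + E) * (T + T') + 1))) := by
      simp only [map_sub, map_mul, map_add, map_pow, map_one, map_ofNat, ← hH'def, ← hT'def,
        ← hEdef]
      ring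
    rw [e7]
    refine Valuation.map_add_le _ hHD (Valuation.map_add_le _ ?_ ?_)
    · refine hmul4 _ _ hk.le (hmul _ _ (Valuation.map_add_le _ hH1.le hH'1) ?_)
      refine Valuation.map_add_le _ (by rw [map_one]) (hmul _ _ hV2 ?_)
      exact Valuation.map_add_le _ (Valuation.map_add_le _ hT4 (hmul _ _ h1E hT2)) hT1
    · refine hmul4 _ _ h8 (hmul _ _ ?_ ?_)
      · rw [map_pow]; exact pow_le_one' hH'1 2
      · refine Valuation.map_add_le _ (Valuation.map_add_le _ ?_ (hmul _ _ h1E hTT))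
          (by rw [map_one])
        exact hmul _ _ hTT (Valuation.map_add_le _ hT2 hT'2)

end Pool.Agent.MP009fd8M
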