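import Pool.Agent.Lib.MP_009fd8_ag.Def

/-!
MP_009fd8_ag, ManyPrimes: the residue conditions of the complete 2-descent on
y^2 = x^3 - n^2 x, n a product of several prime elements.
-/

namespace Pool.Agent.MP009fd8M

open IsDedekindDomain NumberField

variable {R : Type*} [CommRing R] {ι : Type*} [Fintype ι] [DecidableEq ι]

/-- The product of the q i over A when l is not in A, and over the complement of A when l is
in A: in both cases q l does not occur in the product. -/
def dual (q : ι → R) (l : ι) (A : Finset ι) : R :=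
  ∏ i ∈ (if l ∈ A then Aᶜ else A), q i

/-- The residue conditions on (A, B, u, t). They say that the pair (u q_A, u q_B), where q_A is
the product of the q i over A, satisfies at 2 the congruences modulo 4
u q_A = g^2 (1 + 2 t^2), u q_B = h^2 (1 + 2 (t^4 + (1 + e) t^2 + t)), with g and h prime to 2,
and that for every l the elements (-1)^[l in B] u (dual of A at l) and
(-1)^[l in B] 2^[l in A] u (dual of B at l) are squares modulo q l. -/
def IsClass (q : ι → R) (e : R) (A B : Finset ι) (u t : R) : Prop :=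
  (∃ g : R, ¬ 2 ∣ g ∧ 4 ∣ u * ∏ i ∈ A, q i - g ^ 2 * (1 + 2 * t ^ 2)) ∧
  (∃ h : R, ¬ 2 ∣ h ∧
    4 ∣ u * ∏ i ∈ B, q i - h ^ 2 * (1 + 2 * (t ^ 4 + (1 + e) * t ^ 2 + t))) ∧
  ∀ l : ι,
    (∃ m : R, q l ∣ (if l ∈ B then -1 else 1) * u * dual q l A - m ^ 2) ∧
    (∃ m : R, q l ∣ (if l ∈ B then -1 else 1) * (if l ∈ A then 2 else 1) * u * dual q l B
      - m ^ 2)

end Pool.Agent.MP009fd8M
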