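import Pool.Agent.Lib.MP_009fd8_ag.Places
import Pool.Agent.Lib.MP_009fd8_ag.ClassLemma

/-!
MP_009fd8_ag, ManyPrimes, leaf file: odd class number and even valuations away from finitely
many prime elements.
-/

namespace Pool.Agent.MP009fd8M

open IsDedekindDomain NumberField Pool.Agent.MP009fd8

variable {K : Type*} [Field K] [NumberField K]

/-- Odd class number: an element whose valuations are even away from the places of the pairwise
non-associated prime elements q i is a unit times a product of some of the q i times a square,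
and the q i that occur are those at which the valuation is odd.

Proof. A = the set of i at which v(z) is not a square (placeOf (q i) (hq i)). The places of q i
and q j, i different from j, are different (mem_placeOf: q i lies in placeOf (q j) iff q j divides
q i, and then they are associated, Prime.associated_of_dvd or similar). Put
z' = (product over A of algebraMap (q i)) * z. At a place v different from all placeOf (q i) all
factors q i have valuation 1 (val_eq_one, notMem_of_ne). At placeOf (q i) the product has valuation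
exp (-1) (val_self) if i is in A and 1 otherwise. If i is not in A the valuation of z' is that of
z, a square; if i is in A it is exp (-1) * v(z), a square by isSquare_val_or (or isSquare_or).
exists_unit_mul_sq gives z' = u r^2, and z = u q_A (r / q_A)^2. -/
theorem exists_unit_prod_sq (hclass : Odd (NumberField.classNumber K)) {ι : Type*} [Fintype ι]
    [DecidableEq ι] (q : ι → 𝓞 K) (hq : ∀ i, Prime (q i))
    (hqq : ∀ i j, i ≠ j → ¬ Associated (q i) (q j)) (z : K) (hz : z ≠ 0)
    (hv : ∀ v : HeightOneSpectrum (𝓞 K), (∀ i, v ≠ placeOf (q i) (hq i)) →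
      IsSquare (v.valuation K z)) :
    ∃ (A : Finset ι) (u : (𝓞 K)ˣ) (r : K), r ≠ 0 ∧
      z = algebraMap (𝓞 K) K ((u : 𝓞 K) * ∏ i ∈ A, q i) * r ^ 2 ∧
      ∀ i, i ∈ A ↔ ¬ IsSquare ((placeOf (q i) (hq i)).valuation K z) := by
  classical
  have hpl : ∀ i j, i ≠ j → placeOf (q i) (hq i) ≠ placeOf (q j) (hq j) := by
    intro i j hij he
    have h1 : q i ∈ (placeOf (q j) (hq j)).asIdeal := by
      rw [← he]
      exact (mem_placeOf (hq i)).2 dvd_rfl
    rw [mem_placeOf] at h1
    exact hqq j i hij.symm ((hq j).associated_of_dvd (hq i) h1)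
  obtain ⟨A, hA⟩ : ∃ A : Finset ι,
      ∀ i, i ∈ A ↔ ¬ IsSquare ((placeOf (q i) (hq i)).valuation K z) :=
    ⟨Finset.univ.filter fun i => ¬ IsSquare ((placeOf (q i) (hq i)).valuation K z), by simp⟩
  have hQ0 : algebraMap (𝓞 K) K (∏ i ∈ A, q i) ≠ 0 := by
    rw [map_ne_zero_iff _ (FaithfulSMul.algebraMap_injective (𝓞 K) K)]
    exact Finset.prod_ne_zero_iff.2 fun i _ => (hq i).ne_zero
  have h1 : ∀ v : HeightOneSpectrum (𝓞 K),
      IsSquare (v.valuation K (algebraMap (𝓞 K) K (∏ i ∈ A, q i) * z)) := by
    intro v
    rw [map_mul, map_prod, map_prod]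
    by_cases hvi : ∃ i, v = placeOf (q i) (hq i)
    · obtain ⟨i, rfl⟩ := hvi
      have hother : ∀ j, j ≠ i →
          (placeOf (q i) (hq i)).valuation K (algebraMap (𝓞 K) K (q j)) = 1 := fun j hj =>
        val_eq_one _ (notMem_of_ne (hq j) (hpl i j hj.symm))
      by_cases hiA : i ∈ A
      · rw [Finset.prod_eq_single_of_mem i hiA (fun j _ hj => hother j hj), ← map_mul]
        exact (isSquare_val_or (hq i) hz).resolve_left ((hA i).1 hiA)
      · rw [Finset.prod_eq_one (fun j hj => hother j (fun h => hiA (h ▸ hj))), one_mul]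
        by_contra hcon
        exact hiA ((hA i).2 hcon)
    · push Not at hvi
      rw [Finset.prod_eq_one (fun j _ => val_eq_one _ (notMem_of_ne (hq j) (hvi j))), one_mul]
      exact hv v hvi
  obtain ⟨u, r, hr, hzr⟩ := exists_unit_mul_sq hclass _ (mul_ne_zero hQ0 hz) h1
  refine ⟨A, u, r / algebraMap (𝓞 K) K (∏ i ∈ A, q i), div_ne_zero hr hQ0, ?_, hA⟩
  rw [map_mul]
  have e : z = algebraMap (𝓞 K) K (∏ i ∈ A, q i) * z / algebraMap (𝓞 K) K (∏ i ∈ A, q i) := by
    rw [mul_div_cancel_left₀ _ hQ0]
  rw [e, hzr]
  field_simp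

end Pool.Agent.MP009fd8M
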