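import Mathlib

/-!
MP_009fd8_ag, ManyPrimes, leaf file: roots in the residue field at 2.
-/

namespace Pool.Agent.MP009fd8M

open NumberField

private theorem frob_key {K : Type*} [Field K] [NumberField K] (h2 : Prime (2 : 𝓞 K)) {n : ℕ}
    (hn : Nat.Coprime (Module.finrank ℚ K) n) (t : 𝓞 K)
    (h : 2 ∣ t ^ 2 ^ n - t) : 2 ∣ t ∨ 2 ∣ t - 1 := by
  set I : Ideal (𝓞 K) := Ideal.span {(2 : 𝓞 K)} with hI
  have hIp : I.IsPrime := (Ideal.span_singleton_prime two_ne_zero).2 h2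
  have hIm : I.IsMaximal := hIp.isMaximal (by
    rw [hI, Ne, Ideal.span_singleton_eq_bot]; exact two_ne_zero)
  let : Field (𝓞 K ⧸ I) := Ideal.Quotient.field I
  have : Finite (𝓞 K ⧸ I) := by
    apply Ideal.finiteQuotientOfFreeOfNeBot
    rw [hI, Ne, Ideal.span_singleton_eq_bot]
    exact two_ne_zero
  let : Fintype (𝓞 K ⧸ I) := Fintype.ofFinite _
  have hcard : Fintype.card (𝓞 K ⧸ I) = 2 ^ Module.finrank ℚ K := by
    have h1 : Ideal.absNorm I = 2 ^ Module.finrank ℚ K := by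
      rw [hI, Ideal.absNorm_span_singleton]
      have h3 : (2 : 𝓞 K) = algebraMap ℤ (𝓞 K) 2 := by simp
      rw [h3, Algebra.norm_algebraMap, RingOfIntegers.rank, Int.natAbs_pow]
      rfl
    rw [← Nat.card_eq_fintype_card, ← h1, Ideal.absNorm_apply]
    rfl
  set z : 𝓞 K ⧸ I := Ideal.Quotient.mk I t with hz
  have hz1 : z ^ 2 ^ n = z := by
    have h3 : Ideal.Quotient.mk I (t ^ 2 ^ n - t) = 0 := by
      rw [Ideal.Quotient.eq_zero_iff_mem, hI, Ideal.mem_span_singleton]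
      exact h
    rw [map_sub, map_pow, sub_eq_zero] at h3
    exact h3
  have hz2 : z ^ 2 ^ Module.finrank ℚ K = z := by
    rw [← hcard]
    exact FiniteField.pow_card z
  have p1 : Function.IsPeriodicPt (fun y : 𝓞 K ⧸ I => y ^ 2) n z := by
    unfold Function.IsPeriodicPt Function.IsFixedPt
    rw [pow_iterate]
    exact hz1
  have p2 : Function.IsPeriodicPt (fun y : 𝓞 K ⧸ I => y ^ 2) (Module.finrank ℚ K) z := by
    unfold Function.IsPeriodicPt Function.IsFixedPt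
    rw [pow_iterate]
    exact hz2
  have p3 := p2.gcd p1
  rw [hn] at p3
  have h4 : z ^ 2 = z := p3
  have h5 : 2 ∣ t * (t - 1) := by
    have h6 : Ideal.Quotient.mk I (t * (t - 1)) = 0 := by
      rw [map_mul, map_sub, map_one]
      change z * (z - 1) = 0
      linear_combination h4
    rwa [Ideal.Quotient.eq_zero_iff_mem, hI, Ideal.mem_span_singleton] at h6
  exact h2.dvd_or_dvd h5

/-- 2 is a prime element of the ring of integers, of odd degree: t^4 + t = 0 or 1 modulo 2 only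
for t = 0 or 1 modulo 2.

Proof. k = 𝓞 K modulo 2 is a field with 2^f elements, f = [K : ℚ] (see
Lib/MP_009fd8_ag/RankOne.lean, where helper85 proves a similar fact), so x^(2^f) = x in k. In
characteristic 2, x^4 = x or x^4 = x + 1 give x^16 = x. So x is a periodic point of the Frobenius
map y -> y^2 with periods 4 and f, hence (Function.IsPeriodicPt.gcd) with period gcd(4, f) = 1:
x^2 = x. -/
theorem root_odd {K : Type*} [Field K] [NumberField K] (h2 : Prime (2 : 𝓞 K))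
    (hodd : Odd (Module.finrank ℚ K)) (t : 𝓞 K)
    (h : 2 ∣ t ^ 4 + t ∨ 2 ∣ t ^ 4 + t - 1) : 2 ∣ t ∨ 2 ∣ t - 1 := by
  have hc : Nat.Coprime (Module.finrank ℚ K) 4 := by
    have h1 : Nat.Coprime (Module.finrank ℚ K) (2 ^ 2) :=
      Nat.Coprime.pow_right 2 (Nat.coprime_two_right.2 hodd)
    exact h1
  refine frob_key h2 hc t ?_
  rcases h with ⟨c, hc⟩ | ⟨c, hc⟩
  · refine ⟨c * (t ^ 12 - t ^ 9 + t ^ 6 - t ^ 3 + 1) - t, ?_⟩
    linear_combination (t ^ 12 - t ^ 9 + t ^ 6 - t ^ 3 + 1) * hc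
  · refine ⟨c * (t ^ 12 + t ^ 8 * (1 - t) + t ^ 4 * (1 - t) ^ 2 + (1 - t) ^ 3 + 1) +
      (1 - 3 * t + 3 * t ^ 2 - 2 * t ^ 3), ?_⟩
    linear_combination
      (t ^ 12 + t ^ 8 * (1 - t) + t ^ 4 * (1 - t) ^ 2 + (1 - t) ^ 3 + 1) * hc

/-- 2 is a prime element of the ring of integers, of degree prime to 3: t^4 + t^2 + t = 0 or 1
modulo 2 only for t = 0 or 1 modulo 2.

Proof. As before; x^4 + x^2 + x = 0 gives x^8 = x^4 + x^2 = x, and x^4 + x^2 + x = 1 gives the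
same for x + 1 (or directly x^8 = x^4 + x^2 + 1 = x). Periods 3 and f. -/
theorem root_three {K : Type*} [Field K] [NumberField K] (h2 : Prime (2 : 𝓞 K))
    (h3 : ¬ 3 ∣ Module.finrank ℚ K) (t : 𝓞 K)
    (h : 2 ∣ t ^ 4 + t ^ 2 + t ∨ 2 ∣ t ^ 4 + t ^ 2 + t - 1) : 2 ∣ t ∨ 2 ∣ t - 1 := by
  have hc : Nat.Coprime (Module.finrank ℚ K) 3 :=
    ((Nat.Prime.coprime_iff_not_dvd Nat.prime_three).2 h3).symm
  refine frob_key h2 hc t ?_
  rcases h with ⟨c, hc⟩ | ⟨c, hc⟩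
  · refine ⟨c * (t ^ 4 - t ^ 2 - t + 1) + (t ^ 3 - t), ?_⟩
    linear_combination (t ^ 4 - t ^ 2 - t + 1) * hc
  · refine ⟨c * (t ^ 4 + 1 - t - t ^ 2 + 1) + (1 - 2 * t - t ^ 2 + t ^ 3), ?_⟩
    linear_combination (t ^ 4 + 1 - t - t ^ 2 + 1) * hc

end Pool.Agent.MP009fd8M
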