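import Mathlib

/-!
MP_009fd8_ag, ManyPrimes, leaf file: squares modulo a prime element.
-/

namespace Pool.Agent.MP009fd8M

open NumberField

/-- x is a square modulo p. -/
def Sq {R : Type*} [CommRing R] (p x : R) : Prop := ∃ m : R, p ∣ x - m ^ 2

/-- In the ring of integers of a number field the residue field of a prime element is finite, so
the squares have index at most 2 in its multiplicative group.

Proof. k = 𝓞 K modulo p is a finite field (Ideal.span_singleton_prime, IsPrime.isMaximal,
Ideal.finiteQuotientOfFreeOfNeBot or similar). Sq p x says that the class of x is a square in k.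
In characteristic 2 every element is a square (FiniteField.isSquare_of_char_two); otherwise use
quadraticChar (quadraticChar_one_iff_isSquare, multiplicativity, values 1 and -1 on nonzero
elements), or FiniteField.unit_isSquare_iff. -/
theorem sq_mul_iff {K : Type*} [Field K] [NumberField K] {p x y : 𝓞 K} (hp : Prime p)
    (hx : ¬ p ∣ x) (hy : ¬ p ∣ y) : Sq p (x * y) ↔ (Sq p x ↔ Sq p y) := by
  classical
  have hne : p ≠ 0 := hp.ne_zero
  have hI : (Ideal.span {p} : Ideal (𝓞 K)).IsPrime := (Ideal.span_singleton_prime hne).mpr hp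
  have hI0 : (Ideal.span {p} : Ideal (𝓞 K)) ≠ ⊥ := by
    rw [Ne, Ideal.span_singleton_eq_bot]
    exact hne
  have hM : (Ideal.span {p} : Ideal (𝓞 K)).IsMaximal := hI.isMaximal hI0
  letI : Field (𝓞 K ⧸ (Ideal.span {p} : Ideal (𝓞 K))) := Ideal.Quotient.field _
  haveI : Finite (𝓞 K ⧸ (Ideal.span {p} : Ideal (𝓞 K))) :=
    Ideal.finiteQuotientOfFreeOfNeBot _ hI0
  haveI : Fintype (𝓞 K ⧸ (Ideal.span {p} : Ideal (𝓞 K))) := Fintype.ofFinite _
  have hmk : ∀ a : 𝓞 K, Ideal.Quotient.mk (Ideal.span {p} : Ideal (𝓞 K)) a = 0 ↔ p ∣ a := by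
    intro a
    rw [Ideal.Quotient.eq_zero_iff_mem, Ideal.mem_span_singleton]
  have hSq : ∀ a : 𝓞 K, Sq p a ↔
      IsSquare (Ideal.Quotient.mk (Ideal.span {p} : Ideal (𝓞 K)) a) := by
    intro a
    constructor
    · rintro ⟨m, hm⟩
      refine ⟨Ideal.Quotient.mk _ m, ?_⟩
      rw [← hmk, map_sub, sub_eq_zero] at hm
      rw [hm, pow_two, map_mul]
    · rintro ⟨r, hr⟩
      obtain ⟨m, rfl⟩ := Ideal.Quotient.mk_surjective r
      refine ⟨m, ?_⟩
      rw [← hmk, map_sub, hr, pow_two, map_mul, sub_self]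
  rw [hSq, hSq, hSq, map_mul]
  have hx0 : Ideal.Quotient.mk (Ideal.span {p} : Ideal (𝓞 K)) x ≠ 0 := fun h => hx ((hmk x).1 h)
  have hy0 : Ideal.Quotient.mk (Ideal.span {p} : Ideal (𝓞 K)) y ≠ 0 := fun h => hy ((hmk y).1 h)
  have hxy0 := mul_ne_zero hx0 hy0
  rw [← quadraticChar_one_iff_isSquare hx0, ← quadraticChar_one_iff_isSquare hy0,
    ← quadraticChar_one_iff_isSquare hxy0, map_mul]
  rcases quadraticChar_dichotomy hx0 with h1 | h1 <;>
    rcases quadraticChar_dichotomy hy0 with h2 | h2 <;> rw [h1, h2] <;> norm_num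

/-- Products over finite sets: the number of non-squares is even. Induction on C with
sq_mul_iff. -/
theorem sq_prod_iff {K : Type*} [Field K] [NumberField K] {p : 𝓞 K} (hp : Prime p)
    {ι : Type*} [DecidableEq ι] (x : ι → 𝓞 K) (N C : Finset ι)
    (hx : ∀ i ∈ C, ¬ p ∣ x i) (hN : ∀ i ∈ C, (i ∈ N ↔ ¬ Sq p (x i))) :
    Sq p (∏ i ∈ C, x i) ↔ Even (C ∩ N).card := by
  classical
  induction C using Finset.induction_on with
  | empty =>
    simp only [Finset.prod_empty, Finset.empty_inter, Finset.card_empty, Even.zero, iff_true]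
    exact ⟨1, by simp⟩
  | insert a C ha ih =>
    have ih' := ih (fun i hi => hx i (Finset.mem_insert_of_mem hi))
      (fun i hi => hN i (Finset.mem_insert_of_mem hi))
    have hprod : ¬ p ∣ ∏ i ∈ C, x i := by
      intro h
      obtain ⟨i, hi, hd⟩ := hp.exists_mem_finset_dvd h
      exact hx i (Finset.mem_insert_of_mem hi) hd
    rw [Finset.prod_insert ha, sq_mul_iff hp (hx a (Finset.mem_insert_self a C)) hprod, ih']
    have hNa := hN a (Finset.mem_insert_self a C)
    by_cases haN : a ∈ N
    · have hnot : ¬ Sq p (x a) := hNa.1 haN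
      rw [Finset.insert_inter_of_mem haN, Finset.card_insert_of_notMem
        (fun h => ha (Finset.mem_inter.1 h).1), Nat.even_add_one]
      simp only [hnot, false_iff]
    · have hsq : Sq p (x a) := by
        by_contra h
        exact haN (hNa.2 h)
      rw [Finset.insert_inter_of_notMem haN]
      simp only [hsq, true_iff]

end Pool.Agent.MP009fd8M
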