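import Pool.Agent.Lib.MP_009fd8_agM.MainB
import Pool.Agent.Lib.MP_009fd8_agM.Frob
import Pool.Agent.Lib.MP_009fd8_agM.Symbol

/-!
MP_009fd8_ag, ManyPrimes: an explicit family of rank 0 with any number of prime factors.
-/

namespace Pool.Agent.MP009fd8M

open IsDedekindDomain NumberField WithZero Pool.Agent.MP009fd8

variable {K : Type*} [Field K] [NumberField K]

/-- The class of x modulo 2 is determined by g^2 (1 + 2 x) modulo 4 up to odd squares. -/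
theorem mod_two_unique (h2 : Prime (2 : 𝓞 K)) {g k x y : 𝓞 K} (hg : ¬ 2 ∣ g)
    (h : 4 ∣ g ^ 2 * (1 + 2 * x) - k ^ 2 * (1 + 2 * y)) : 2 ∣ x - y := by
  obtain ⟨z, hz⟩ := h
  have h1 : (2 : 𝓞 K) ∣ (g - k) ^ 2 :=
    ⟨2 * z - g ^ 2 * x + k ^ 2 * y + k ^ 2 - g * k, by linear_combination hz⟩
  obtain ⟨d, hd⟩ := h2.dvd_of_dvd_pow h1
  have hk : ¬ 2 ∣ k := by
    rintro ⟨m, hm⟩
    exact hg ⟨d + m, by linear_combination hd + hm⟩
  have h3 : (2 : 𝓞 K) * (k ^ 2 * (x - y)) = 2 * (2 * (z - (k * d + d ^ 2) * (1 + 2 * x))) := by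
    have hgk : g = k + 2 * d := by linear_combination hd
    rw [hgk] at hz
    linear_combination hz
  have h4 : k ^ 2 * (x - y) = 2 * (z - (k * d + d ^ 2) * (1 + 2 * x)) :=
    mul_left_cancel₀ two_ne_zero h3
  rcases h2.dvd_or_dvd ⟨_, h4⟩ with h5 | h5
  · exact absurd (h2.dvd_of_dvd_pow h5) hk
  · exact h5

omit [NumberField K] in
/-- Products of elements that are minus a square modulo 4. -/
theorem prod_neg_sq {ι : Type*} [DecidableEq ι] (q c : ι → 𝓞 K)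
    (h4 : ∀ i, 4 ∣ q i + c i ^ 2) (C : Finset ι) :
    4 ∣ ∏ i ∈ C, q i - (-1) ^ C.card * (∏ i ∈ C, c i) ^ 2 := by
  induction C using Finset.induction_on with
  | empty => simp
  | insert a C ha ih =>
    obtain ⟨k, hk⟩ := ih
    obtain ⟨m, hm⟩ := h4 a
    rw [Finset.prod_insert ha, Finset.prod_insert ha, Finset.card_insert_of_notMem ha]
    refine ⟨m * ∏ i ∈ C, q i - c a ^ 2 * k, ?_⟩
    rw [pow_succ]
    linear_combination (∏ i ∈ C, q i) * hm - c a ^ 2 * hk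

/-- The combinatorial part: the residue conditions at the places q l. -/
theorem comb {s : ℕ} {q : Fin s → 𝓞 K} (hq : ∀ i, Prime (q i))
    (hqq : ∀ i j, i ≠ j → ¬ Associated (q i) (q j))
    (hneg : ∀ i, ¬ Sq (q i) (-1)) (htwo : ∀ i, ¬ Sq (q i) 2)
    (hlt : ∀ i j, j < i → ¬ Sq (q i) (q j)) (hgt : ∀ i j, i < j → Sq (q i) (q j))
    {A B : Finset (Fin s)} {u : (𝓞 K)ˣ} {κ : Prop} (hu : ∀ l, Sq (q l) (u : 𝓞 K) ↔ ¬ κ)
    (h : ∀ l,
      (Sq (q l) ((if l ∈ B then -1 else 1) * (u : 𝓞 K) * dual q l A)) ∧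
      (Sq (q l) ((if l ∈ B then -1 else 1) * (if l ∈ A then 2 else 1) * (u : 𝓞 K) *
        dual q l B))) :
    A = ∅ ∧ ((¬ κ ∧ B = ∅) ∨ (κ ∧ B = Finset.univ)) := by
  classical
  have hunit : ∀ (l : Fin s) (x : 𝓞 K), IsUnit x → ¬ q l ∣ x := fun l x hx hd =>
    (hq l).not_isUnit (isUnit_of_dvd_unit hd hx)
  have hone : ∀ p : 𝓞 K, Sq p 1 := fun p => ⟨1, by simp⟩
  have hl2 : ∀ l, ¬ q l ∣ 2 := fun l hd => htwo l ⟨0, by simpa using hd⟩
  have hs : ∀ l, ¬ q l ∣ (if l ∈ B then (-1 : 𝓞 K) else 1) := by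
    intro l
    split_ifs
    · exact hunit l _ isUnit_one.neg
    · exact hunit l _ isUnit_one
  have ht : ∀ l, ¬ q l ∣ (if l ∈ A then (2 : 𝓞 K) else 1) := by
    intro l
    split_ifs
    · exact hl2 l
    · exact hunit l _ isUnit_one
  have hmul : ∀ (l : Fin s) (x y : 𝓞 K), ¬ q l ∣ x → ¬ q l ∣ y → ¬ q l ∣ x * y := by
    intro l x y hx hy hd
    rcases (hq l).dvd_or_dvd hd with h | h
    · exact hx h
    · exact hy h
  have hss : ∀ l, Sq (q l) (if l ∈ B then (-1 : 𝓞 K) else 1) ↔ l ∉ B := by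
    intro l
    split_ifs with h1
    · simp [h1, hneg l]
    · simp [h1, hone]
  have htt : ∀ l, Sq (q l) (if l ∈ A then (2 : 𝓞 K) else 1) ↔ l ∉ A := by
    intro l
    split_ifs with h1
    · simp [h1, htwo l]
    · simp [h1, hone]
  -- the duals
  have hdual : ∀ (l : Fin s) (C : Finset (Fin s)), Sq (q l) (dual q l C) ↔
      Even ((if l ∈ C then Cᶜ else C) ∩ Finset.univ.filter (· < l)).card := by
    intro l C
    unfold dual
    have hmem : ∀ i ∈ (if l ∈ C then Cᶜ else C), i ≠ l := by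
      rintro i hi rfl
      split_ifs at hi with h1
      · exact (Finset.mem_compl.mp hi) h1
      · exact h1 hi
    apply sq_prod_iff (hq l)
    · intro i hi hd
      exact hqq l i (Ne.symm (hmem i hi)) ((hq l).associated_of_dvd (hq i) hd)
    · intro i hi
      simp only [Finset.mem_filter, Finset.mem_univ, true_and]
      constructor
      · exact hlt l i
      · intro hns
        rcases lt_or_gt_of_ne (hmem i hi) with h1 | h1
        · exact h1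
        · exact absurd (hgt l i h1) hns
  have hc1 : ∀ l, ((l ∉ B ↔ ¬ κ) ↔
      Even ((if l ∈ A then Aᶜ else A) ∩ Finset.univ.filter (· < l)).card) := by
    intro l
    have h1 := (h l).1
    rw [sq_mul_iff (hq l) (hmul l _ _ (hs l) (hunit l _ u.isUnit)) (not_dvd_dual hq hqq l A),
      sq_mul_iff (hq l) (hs l) (hunit l _ u.isUnit), hss, hu, hdual] at h1
    exact h1
  have hc2 : ∀ l, (((l ∉ B ↔ l ∉ A) ↔ ¬ κ) ↔
      Even ((if l ∈ B then Bᶜ else B) ∩ Finset.univ.filter (· < l)).card) := by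
    intro l
    have h1 := (h l).2
    rw [sq_mul_iff (hq l) (hmul l _ _ (hmul l _ _ (hs l) (ht l)) (hunit l _ u.isUnit))
        (not_dvd_dual hq hqq l B),
      sq_mul_iff (hq l) (hmul l _ _ (hs l) (ht l)) (hunit l _ u.isUnit),
      sq_mul_iff (hq l) (hs l) (ht l), hss, htt, hu, hdual] at h1
    exact h1
  have hA : A = ∅ := by
    by_contra hne
    obtain ⟨l, hlA, hmin⟩ : ∃ l ∈ A, ∀ i ∈ A, l ≤ i := by
      obtain ⟨l, hl, hm⟩ := Finset.exists_min_image A id (Finset.nonempty_iff_ne_empty.mpr hne)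
      exact ⟨l, hl, hm⟩
    have hbelow : ∀ i, i < l → i ∉ A := fun i hi hiA => absurd (hmin i hiA) (not_le.mpr hi)
    have hB : ∀ i, i < l → (i ∉ B ↔ ¬ κ) := by
      intro i hi
      have h1 := hc1 i
      rw [if_neg (hbelow i hi)] at h1
      have h3 : A ∩ Finset.univ.filter (· < i) = ∅ := by
        ext j
        simp only [Finset.mem_inter, Finset.mem_filter, Finset.mem_univ, true_and,
          Finset.notMem_empty, iff_false, not_and]
        intro hj hji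
        exact hbelow j (lt_trans hji hi) hj
      rw [h3, Finset.card_empty] at h1
      exact h1.mpr ⟨0, rfl⟩
    have h1 := hc1 l
    have h2 := hc2 l
    rw [if_pos hlA] at h1
    have h3 : Aᶜ ∩ Finset.univ.filter (· < l) = Finset.univ.filter (· < l) := by
      ext j
      simp only [Finset.mem_inter, Finset.mem_filter, Finset.mem_univ, true_and,
        Finset.mem_compl, and_iff_right_iff_imp]
      exact hbelow j
    rw [h3] at h1
    by_cases hlB : l ∈ B <;> by_cases hκ : κ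
    · rw [if_pos hlB] at h2
      have h4 : Bᶜ ∩ Finset.univ.filter (· < l) = ∅ := by
        ext j
        simp only [Finset.mem_inter, Finset.mem_filter, Finset.mem_univ, true_and,
          Finset.mem_compl, Finset.notMem_empty, iff_false, not_and]
        intro hj hjl
        exact ((hB j hjl).mp hj) hκ
      rw [h4, Finset.card_empty] at h2
      have h5 : Even 0 := ⟨0, rfl⟩
      tauto
    · rw [if_pos hlB] at h2
      have h4 : Bᶜ ∩ Finset.univ.filter (· < l) = Finset.univ.filter (· < l) := by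
        ext j
        simp only [Finset.mem_inter, Finset.mem_filter, Finset.mem_univ, true_and,
          Finset.mem_compl, and_iff_right_iff_imp]
        intro hjl
        exact (hB j hjl).mpr hκ
      rw [h4] at h2
      tauto
    · rw [if_neg hlB] at h2
      have h4 : B ∩ Finset.univ.filter (· < l) = Finset.univ.filter (· < l) := by
        ext j
        simp only [Finset.mem_inter, Finset.mem_filter, Finset.mem_univ, true_and,
          and_iff_right_iff_imp]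
        intro hjl
        by_contra hj
        exact ((hB j hjl).mp hj) hκ
      rw [h4] at h2
      tauto
    · rw [if_neg hlB] at h2
      have h4 : B ∩ Finset.univ.filter (· < l) = ∅ := by
        ext j
        simp only [Finset.mem_inter, Finset.mem_filter, Finset.mem_univ, true_and,
          Finset.notMem_empty, iff_false, not_and]
        intro hj hjl
        exact ((hB j hjl).mpr hκ) hj
      rw [h4, Finset.card_empty] at h2
      have h5 : Even 0 := ⟨0, rfl⟩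
      tauto
  refine ⟨hA, ?_⟩
  have hBall : ∀ i, (i ∉ B ↔ ¬ κ) := by
    intro i
    have h1 := hc1 i
    rw [hA, if_neg (Finset.notMem_empty i), Finset.empty_inter, Finset.card_empty] at h1
    exact h1.mpr ⟨0, rfl⟩
  by_cases hκ : κ
  · refine Or.inr ⟨hκ, ?_⟩
    ext i
    simp only [Finset.mem_univ, iff_true]
    by_contra hi
    exact ((hBall i).mp hi) hκ
  · refine Or.inl ⟨hκ, ?_⟩
    ext i
    simp only [Finset.notMem_empty, iff_false]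
    exact (hBall i).mpr hκ

/-- The unit of a class is plus or minus a square. -/
theorem unit_pm
    (hfour : ∀ u : (𝓞 K)ˣ, (∃ m : 𝓞 K, (4 : 𝓞 K) ∣ (u : 𝓞 K) - m ^ 2) → IsSquare u)
    (h2 : Prime (2 : 𝓞 K)) {ι : Type*} [Fintype ι] [DecidableEq ι] (q c : ι → 𝓞 K)
    (hq2 : ∀ i, ¬ 2 ∣ q i) (h4 : ∀ i, 4 ∣ q i + c i ^ 2) (e : 𝓞 K)
    (hroot : ∀ t : 𝓞 K, (2 ∣ t ^ 4 + e * t ^ 2 + t ∨ 2 ∣ t ^ 4 + e * t ^ 2 + t - 1) →
      2 ∣ t ∨ 2 ∣ t - 1)
    {A B : Finset ι} {u : (𝓞 K)ˣ} {t : 𝓞 K} (h : IsClass q e A B (u : 𝓞 K) t) :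
    ∃ η : (𝓞 K)ˣ, (u = η ^ 2 ∧ (A = ∅ → 2 ∣ t)) ∨ (u = -η ^ 2 ∧ (A = ∅ → 2 ∣ t - 1)) := by
  classical
  obtain ⟨⟨g, hg, kA, hA⟩, ⟨k, hk, kB, hB⟩, _⟩ := h
  have hc2 : ∀ i, ¬ 2 ∣ c i := by
    rintro i ⟨m, hm⟩
    obtain ⟨z, hz⟩ := h4 i
    exact hq2 i ⟨2 * z - 2 * m ^ 2, by rw [hm] at hz; linear_combination hz⟩
  have hcC : ∀ C : Finset ι, ¬ 2 ∣ ∏ i ∈ C, c i := by
    intro C hd
    obtain ⟨i, _, hi⟩ := h2.exists_mem_finset_dvd hd
    exact hc2 i hi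
  obtain ⟨mA, hmA⟩ := prod_neg_sq q c h4 A
  obtain ⟨mB, hmB⟩ := prod_neg_sq q c h4 B
  obtain ⟨cA, hcA⟩ : ∃ x, x = ∏ i ∈ A, c i := ⟨_, rfl⟩
  obtain ⟨cB, hcB⟩ : ∃ x, x = ∏ i ∈ B, c i := ⟨_, rfl⟩
  obtain ⟨qA, hqA⟩ : ∃ x, x = ∏ i ∈ A, q i := ⟨_, rfl⟩
  obtain ⟨qB, hqB⟩ : ∃ x, x = ∏ i ∈ B, q i := ⟨_, rfl⟩
  have hcA2 : ¬ 2 ∣ cA := by rw [hcA]; exact hcC A
  have hcB2 : ¬ 2 ∣ cB := by rw [hcB]; exact hcC B
  rw [← hqA] at hA hmA
  rw [← hqB] at hB hmB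
  rw [← hcA] at hmA
  rw [← hcB] at hmB
  have hu2 : ¬ (2 : 𝓞 K) ∣ (u : 𝓞 K) := fun hd => h2.not_isUnit (isUnit_of_dvd_unit hd u.isUnit)
  have hsgn : ∀ m : ℕ, ((-1 : 𝓞 K) ^ m = 1) ∨ ((-1 : 𝓞 K) ^ m = -1) := fun m =>
    neg_one_pow_eq_or (𝓞 K) m
  -- t is 0 or 1 modulo 2
  have ht : 2 ∣ t ∨ 2 ∣ t - 1 := by
    apply hroot
    have hprod : ∃ y : 𝓞 K, (y = 0 ∨ y = -1) ∧
        (-1 : 𝓞 K) ^ A.card * (-1) ^ B.card = 1 + 2 * y := by
      rcases hsgn A.card with h5 | h5 <;> rcases hsgn B.card with h6 | h6 <;> rw [h5, h6]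
      · exact ⟨0, Or.inl rfl, by ring⟩
      · exact ⟨-1, Or.inr rfl, by ring⟩
      · exact ⟨-1, Or.inr rfl, by ring⟩
      · exact ⟨0, Or.inl rfl, by ring⟩
    obtain ⟨y, hy, hyy⟩ := hprod
    have h7 : 4 ∣ (g * k) ^ 2 * (1 + 2 * (t ^ 4 + e * t ^ 2 + t)) -
        ((u : 𝓞 K) * cA * cB) ^ 2 * (1 + 2 * y) := by
      rw [← hyy]
      have e1 : (u : 𝓞 K) * qA = g ^ 2 * (1 + 2 * t ^ 2) + 4 * kA := by linear_combination hA
      have e2 : (u : 𝓞 K) * qB =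
          k ^ 2 * (1 + 2 * (t ^ 4 + (1 + e) * t ^ 2 + t)) + 4 * kB := by linear_combination hB
      have e3 : qA = (-1) ^ A.card * cA ^ 2 + 4 * mA := by linear_combination hmA
      have e4 : qB = (-1) ^ B.card * cB ^ 2 + 4 * mB := by linear_combination hmB
      have e5 : ((u : 𝓞 K) * qA) * ((u : 𝓞 K) * qB) =
          (g ^ 2 * (1 + 2 * t ^ 2) + 4 * kA) *
          (k ^ 2 * (1 + 2 * (t ^ 4 + (1 + e) * t ^ 2 + t)) + 4 * kB) := by rw [e1, e2]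
      have e6 : ((u : 𝓞 K) * qA) * ((u : 𝓞 K) * qB) =
          (u : 𝓞 K) ^ 2 * (((-1) ^ A.card * cA ^ 2 + 4 * mA) *
          ((-1) ^ B.card * cB ^ 2 + 4 * mB)) := by rw [← e3, ← e4]; ring
      obtain ⟨α, hα⟩ : ∃ α, α = (-1 : 𝓞 K) ^ A.card := ⟨_, rfl⟩
      obtain ⟨β, hβ⟩ : ∃ β, β = (-1 : 𝓞 K) ^ B.card := ⟨_, rfl⟩
      rw [← hα, ← hβ] at e6
      rw [← hα, ← hβ]
      refine ⟨(u : 𝓞 K) ^ 2 * (α * cA ^ 2 * mB + mA * β * cB ^ 2 + 4 * mA * mB) -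
        (g ^ 2 * (1 + 2 * t ^ 2) * kB +
          kA * (k ^ 2 * (1 + 2 * (t ^ 4 + (1 + e) * t ^ 2 + t))) + 4 * kA * kB) -
        g ^ 2 * k ^ 2 * (t ^ 2 + t ^ 2 * (t ^ 4 + (1 + e) * t ^ 2 + t)), ?_⟩
      linear_combination e5 * (-1 : 𝓞 K) + e6
    have hgk : ¬ 2 ∣ g * k := by
      intro hd
      rcases h2.dvd_or_dvd hd with hd | hd
      · exact hg hd
      · exact hk hd
    have h8 := mod_two_unique h2 hgk h7
    rcases hy with rfl | rfl
    · left; simpa using h8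
    · right
      obtain ⟨z, hz⟩ := h8
      exact ⟨z - 1, by linear_combination hz⟩
  -- u q_A is plus or minus g^2 modulo 4
  have hsign : ∃ σ : 𝓞 K, (σ = 1 ∧ 2 ∣ t ∨ σ = -1 ∧ 2 ∣ t - 1) ∧
      4 ∣ (u : 𝓞 K) * qA - σ * g ^ 2 := by
    rcases ht with ht | ht
    · refine ⟨1, Or.inl ⟨rfl, ht⟩, ?_⟩
      obtain ⟨z, rfl⟩ := ht
      exact ⟨kA + 2 * g ^ 2 * z ^ 2, by linear_combination hA⟩
    · refine ⟨-1, Or.inr ⟨rfl, ht⟩, ?_⟩
      obtain ⟨z, hz⟩ := ht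
      have hz' : t = 1 + 2 * z := by linear_combination hz
      rw [hz'] at hA
      exact ⟨kA + g ^ 2 + 2 * g ^ 2 * (z + z ^ 2), by linear_combination hA⟩
  obtain ⟨σ, hσ, kσ, hkσ⟩ := hsign
  have hσ2 : σ * σ = 1 := by rcases hσ with ⟨rfl, _⟩ | ⟨rfl, _⟩ <;> ring
  obtain ⟨y, w, hw⟩ := exists_inv_mod_four h2 hcA2
  have hpm : ∀ v : (𝓞 K)ˣ, (v : 𝓞 K) = σ * (-1) ^ A.card * (u : 𝓞 K) → IsSquare v := by
    intro v hv
    apply hfour
    obtain ⟨α, hα⟩ : ∃ α, α = (-1 : 𝓞 K) ^ A.card := ⟨_, rfl⟩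
    have hαα : α * α = 1 := by
      rcases hsgn A.card with h5 | h5 <;> rw [hα, h5] <;> ring
    rw [← hα] at hv hmA
    refine ⟨g * y, ?_⟩
    rw [hv]
    have e3 : qA = α * cA ^ 2 + 4 * mA := by linear_combination hmA
    rw [e3] at hkσ
    have e8 : cA * y = 1 + 4 * w := by linear_combination hw
    have e9 : cA ^ 2 * y ^ 2 = 1 + 8 * w + 16 * w ^ 2 := by
      have : cA ^ 2 * y ^ 2 = (cA * y) ^ 2 := by ring
      rw [this, e8]; ring
    refine ⟨σ * y ^ 2 * kσ - σ * y ^ 2 * (u : 𝓞 K) * mA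
      - σ * α * (u : 𝓞 K) * (2 * w + 4 * w ^ 2), ?_⟩
    linear_combination (σ * y ^ 2) * hkσ - (σ * α * (u : 𝓞 K)) * e9 + (g ^ 2 * y ^ 2) * hσ2
  -- conclusion
  have hval : ∀ v : (𝓞 K)ˣ, IsSquare v → ∃ η : (𝓞 K)ˣ, v = η ^ 2 := by
    rintro v ⟨η, hη⟩
    exact ⟨η, by rw [hη, sq]⟩
  rcases hσ with ⟨rfl, ht'⟩ | ⟨rfl, ht'⟩ <;> rcases hsgn A.card with h5 | h5
  · obtain ⟨η, hη⟩ := hval u (hpm u (by rw [h5]; ring))
    exact ⟨η, Or.inl ⟨hη, fun _ => ht'⟩⟩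
  · obtain ⟨η, hη⟩ := hval (-u) (hpm (-u) (by rw [h5, Units.val_neg]; ring))
    refine ⟨η, Or.inr ⟨by rw [← hη, neg_neg], fun hA0 => ?_⟩⟩
    exfalso
    rw [hA0, Finset.card_empty, pow_zero] at h5
    exact h2.not_isUnit (by
      have h6 : (2 : 𝓞 K) = 0 := by linear_combination h5
      exact absurd h6 two_ne_zero)
  · obtain ⟨η, hη⟩ := hval (-u) (hpm (-u) (by rw [h5, Units.val_neg]; ring))
    exact ⟨η, Or.inr ⟨by rw [← hη, neg_neg], fun _ => ht'⟩⟩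
  · obtain ⟨η, hη⟩ := hval u (hpm u (by rw [h5]; ring))
    refine ⟨η, Or.inl ⟨hη, fun hA0 => ?_⟩⟩
    exfalso
    rw [hA0, Finset.card_empty, pow_zero] at h5
    exact h2.not_isUnit (by
      have h6 : (2 : 𝓞 K) = 0 := by linear_combination h5
      exact absurd h6 two_ne_zero)

/-- The explicit family of rank 0. -/
theorem iskra (hclass : Odd (NumberField.classNumber K))
    (hpos : ∀ u : (𝓞 K)ˣ, (∀ f : K →+* ℝ, 0 < f (algebraMap (𝓞 K) K (u : 𝓞 K))) → IsSquare u)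
    (h2 : Prime (2 : 𝓞 K)) (hodd : Odd (Module.finrank ℚ K)) {s : ℕ}
    (h3 : Even s ∨ ¬ 3 ∣ Module.finrank ℚ K) (q : Fin s → 𝓞 K) (hq : ∀ i, Prime (q i))
    (hqpos : ∀ i, ∀ f : K →+* ℝ, 0 < f (algebraMap (𝓞 K) K (q i)))
    (h4 : ∀ i, ∃ c : 𝓞 K, 4 ∣ q i + c ^ 2)
    (hneg : ∀ i, ∀ m : 𝓞 K, ¬ q i ∣ -1 - m ^ 2) (htwo : ∀ i, ∀ m : 𝓞 K, ¬ q i ∣ 2 - m ^ 2)
    (hlt : ∀ i j, j < i → ∀ m : 𝓞 K, ¬ q i ∣ q j - m ^ 2)
    (hgt : ∀ i j, i < j → ∃ m : 𝓞 K, q i ∣ q j - m ^ 2)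
    (a b : K) (ha : a ≠ 0) (hb : b ≠ 0) :
    SelmerPair K (algebraMap (𝓞 K) K (∏ i, q i)) a b ↔
      TorsionPair (algebraMap (𝓞 K) K (∏ i, q i)) a b := by
  classical
  have hfour : ∀ u : (𝓞 K)ˣ, (∃ m : 𝓞 K, (4 : 𝓞 K) ∣ (u : 𝓞 K) - m ^ 2) → IsSquare u :=
    fun u ⟨m, hm⟩ => isSquare_of_sq_mod_four hclass hpos u m hm
  choose c hc using h4
  have hqq : ∀ i j, i ≠ j → ¬ Associated (q i) (q j) := by
    have key : ∀ i j, j < i → ¬ Associated (q i) (q j) := by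
      intro i j hji hass
      exact hlt i j hji 0 (by simpa using hass.dvd)
    intro i j hij hass
    rcases lt_or_gt_of_ne hij with h | h
    · exact key j i h hass.symm
    · exact key i j h hass
  have hq2' : ∀ i, ¬ q i ∣ 2 := fun i hd => htwo i 0 (by simpa using hd)
  have hq2 : ∀ i, ¬ 2 ∣ q i := by
    intro i hd
    exact hq2' i (h2.associated_of_dvd (hq i) hd).symm.dvd
  obtain ⟨e, hroot, k, hk⟩ : ∃ e : 𝓞 K,
      (∀ t : 𝓞 K, (2 ∣ t ^ 4 + e * t ^ 2 + t ∨ 2 ∣ t ^ 4 + e * t ^ 2 + t - 1) →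
        2 ∣ t ∨ 2 ∣ t - 1) ∧
      ∃ k : 𝓞 K, 4 ∣ ∏ i, q i - k ^ 2 * (1 + 2 * e) := by
    obtain ⟨m, hm⟩ := prod_neg_sq q c hc Finset.univ
    rw [Finset.card_univ, Fintype.card_fin] at hm
    rcases Nat.even_or_odd s with hs | hs
    · refine ⟨0, ?_, ∏ i, c i, m, ?_⟩
      · intro t ht
        apply root_odd h2 hodd t
        simpa using ht
      · rw [hs.neg_one_pow] at hm
        linear_combination hm
    · refine ⟨-1, ?_, ∏ i, c i, m, ?_⟩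
      · intro t ht
        apply root_three h2 (h3.resolve_left (Nat.not_even_iff_odd.mpr hs)) t
        rcases ht with ⟨z, hz⟩ | ⟨z, hz⟩
        · exact Or.inl ⟨z + t ^ 2, by linear_combination hz⟩
        · exact Or.inr ⟨z + t ^ 2, by linear_combination hz⟩
      · rw [hs.neg_one_pow] at hm
        linear_combination hm
  refine many_primes_one hclass hpos h2 q hq hqq hqpos hq2 k e hk ?_ a b ha hb
  intro A B u t hcl
  obtain ⟨η, hη⟩ := unit_pm hfour h2 q c hq2 hc e hroot hcl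
  have hηl : ∀ l, ¬ q l ∣ ((η : 𝓞 K)) ^ 2 := by
    intro l hd
    exact (hq l).not_isUnit (isUnit_of_dvd_unit hd (η.isUnit.pow 2))
  have hsq : ∀ l, Sq (q l) ((η : 𝓞 K) ^ 2) := fun l => ⟨(η : 𝓞 K), by simp⟩
  have hneg1 : ∀ l, ¬ q l ∣ (-1 : 𝓞 K) := by
    intro l hd
    exact (hq l).not_isUnit (isUnit_of_dvd_unit hd isUnit_one.neg)
  have hneg' : ∀ i, ¬ Sq (q i) (-1) := fun i ⟨m, hm⟩ => hneg i m hm
  have htwo' : ∀ i, ¬ Sq (q i) 2 := fun i ⟨m, hm⟩ => htwo i m hm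
  have hlt' : ∀ i j, j < i → ¬ Sq (q i) (q j) := fun i j hij ⟨m, hm⟩ => hlt i j hij m hm
  rcases hη with ⟨hη, ht⟩ | ⟨hη, ht⟩
  · obtain ⟨hA, hB⟩ := comb hq hqq hneg' htwo' hlt' hgt (κ := False) (u := u)
      (fun l => by
        rw [hη, Units.val_pow_eq_pow_val]
        simp [hsq l]) hcl.2.2
    rcases hB with ⟨_, hB⟩ | ⟨hB, _⟩
    · exact ⟨hA, Or.inl ⟨hB, ht hA⟩⟩
    · exact absurd hB not_false
  · obtain ⟨hA, hB⟩ := comb hq hqq hneg' htwo' hlt' hgt (κ := True) (u := u)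
      (fun l => by
        rw [hη, Units.val_neg, Units.val_pow_eq_pow_val, ← neg_one_mul,
          sq_mul_iff (hq l) (hneg1 l) (hηl l)]
        have h5 : ¬ Sq (q l) (-1) := fun ⟨m, hm⟩ => hneg l m hm
        simp [hsq l, h5]) hcl.2.2
    rcases hB with ⟨hB, _⟩ | ⟨_, hB⟩
    · exact absurd trivial hB
    · exact ⟨hA, Or.inr ⟨hB, ht hA⟩⟩

end Pool.Agent.MP009fd8M
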