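import Pool.Agent.Lib.MP_009fd8_ag.Def

/-!
MP_009fd8_ag, ManyPrimes, leaf file: the place 2, odd valuation, for pairs (a, b).
-/

namespace Pool.Agent.MP009fd8M

open Pool.Agent.MP009fd8

/-- In a value group, if d * x^2 = y^2 with x nonzero then d is a square. -/
private theorem isSquare_of_mul_sq {Γ : Type*} [LinearOrderedCommGroupWithZero Γ] {d x y : Γ}
    (hx : x ≠ 0) (h : d * x ^ 2 = y ^ 2) : IsSquare d :=
  ⟨y / x, by field_simp; rw [← h]⟩

/-- At the place 2: if v(a b) is a square in the value group, v(a) is not, and n is a unit, then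
C_(a,b) has no point (compare At2a.lean, no_point_odd, the case a = b).

Proof. Put d = v(a) and note v(b) is not a square either. Take a point. If W = 0: X = 0 forces
Y = Z = 0, impossible, so X is nonzero and v(a b Z^2) = v(a X^2) says that v(a) is a square. If
W is nonzero: v(n W^2) = v(W)^2 is a square, v(a X^2) is zero or not a square. So they differ.
If v(a X^2) < v(n W^2), then v(b Y^2) = v(W)^2, so Y is nonzero and v(b) is a square, impossible.
If v(a X^2) > v(n W^2), then X is nonzero and v(a b Z^2) = v(a X^2), so v(a) is a square. -/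
theorem no_point_odd_pair {F : Type*} [Field F] {Γ : Type*} [LinearOrderedCommGroupWithZero Γ]
    (v : Valuation F Γ) (n a b : F) (ha : a ≠ 0) (hb : b ≠ 0) (hab : IsSquare (v a * v b))
    (hva : ¬ IsSquare (v a)) (hn : v n = 1) (h : HasPoint n a b) : False := by
  obtain ⟨X, Y, Z, W, hne, h1, h2⟩ := h
  obtain ⟨r, hr⟩ := hab
  have hva0 : v a ≠ 0 := by simpa using ha
  have hvb0 : v b ≠ 0 := by simpa using hb
  have hvb : ¬ IsSquare (v b) := by
    intro hsq
    obtain ⟨s, hs⟩ := hsq
    have hs0 : s ≠ 0 := by
      intro h0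
      rw [h0, mul_zero] at hs
      exact hvb0 hs
    refine hva (isSquare_of_mul_sq hs0 (y := r) ?_)
    rw [sq, sq, ← hs, hr]
  -- values of the terms
  have vX : v (a * X ^ 2) = v a * v X ^ 2 := by simp
  have vY : v (b * Y ^ 2) = v b * v Y ^ 2 := by simp
  have vW : v (n * W ^ 2) = v W ^ 2 := by simp [hn]
  have vZ : v (a * b * Z ^ 2) = (r * v Z) ^ 2 := by
    rw [map_mul, map_mul, map_pow, hr, mul_pow, sq r]
  by_cases hW : W = 0
  · subst hW
    have h2' : a * b * Z ^ 2 = a * X ^ 2 := by rw [h2]; ring
    by_cases hX : X = 0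
    · subst hX
      have hZ : Z = 0 := by
        have h3 : a * b * Z ^ 2 = 0 := by rw [h2']; ring
        have h4 := (mul_eq_zero.mp h3).resolve_left (mul_ne_zero ha hb)
        exact pow_eq_zero_iff two_ne_zero |>.mp h4
      have hY : Y = 0 := by
        have h3 : b * Y ^ 2 = 0 := by rw [h1]; ring
        have h4 := (mul_eq_zero.mp h3).resolve_left hb
        exact pow_eq_zero_iff two_ne_zero |>.mp h4
      simp [hZ, hY] at hne
    · have hvX : v X ≠ 0 := by simpa using hX
      refine hva (isSquare_of_mul_sq hvX (y := r * v Z) ?_)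
      rw [← vX, ← vZ, h2']
  · have hvW : v W ≠ 0 := by simpa using hW
    rcases lt_trichotomy (v (a * X ^ 2)) (v (n * W ^ 2)) with hlt | heq | hgt
    · have h3 : v (b * Y ^ 2) = v (n * W ^ 2) := by
        rw [h1]; exact Valuation.map_sub_eq_of_lt_right v hlt
      rw [vY, vW] at h3
      by_cases hY : v Y = 0
      · rw [hY] at h3
        simp at h3
        exact hvW (by simpa using h3.symm)
      · exact hvb (isSquare_of_mul_sq hY h3)
    · rw [vX, vW] at heq
      by_cases hX : v X = 0
      · rw [hX] at heq
        simp at heq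
        exact hvW (by simpa using heq.symm)
      · exact hva (isSquare_of_mul_sq hX heq)
    · have h3 : v (a * b * Z ^ 2) = v (a * X ^ 2) := by
        rw [h2]; exact Valuation.map_add_eq_of_lt_left v hgt
      rw [vZ, vX] at h3
      by_cases hX : v X = 0
      · rw [vX, hX] at hgt
        simp at hgt
      · exact hva (isSquare_of_mul_sq hX h3.symm)

end Pool.Agent.MP009fd8M
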