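import Pool.Agent.Lib.MP_009fd8_ag.RealPlace
import Pool.Agent.Lib.MP_009fd8_ag.Away
import Pool.Agent.Lib.MP_009fd8_ag.MainC
import Pool.Agent.Lib.MP_009fd8_agM.Def
import Pool.Agent.Lib.MP_009fd8_agM.Odd2
import Pool.Agent.Lib.MP_009fd8_agM.Fact
import Pool.Agent.Lib.MP_009fd8_agM.Glob

/-!
MP_009fd8_ag, ManyPrimes: the complete 2-descent on y^2 = x^3 - n^2 x, assembly.
-/

namespace Pool.Agent.MP009fd8M

open IsDedekindDomain NumberField WithZero Pool.Agent.MP009fd8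

section field

variable {F : Type*} [Field F] {ι : Type*} [Fintype ι] [DecidableEq ι]

/-- The four translates by 2-torsion points. -/
theorem hasPoint_dual (q : ι → F) (hq : ∀ i, q i ≠ 0) (u : F) (hu : u ≠ 0) (A B : Finset ι)
    (l : ι) (h : HasPoint (∏ i, q i) (u * ∏ i ∈ A, q i) (u * ∏ i ∈ B, q i)) :
    HasPoint (∏ i, q i) ((if l ∈ B then -1 else 1) * u * dual q l A)
      ((if l ∈ B then -1 else 1) * (if l ∈ A then 2 else 1) * u * dual q l B) := by
  have hn : ∏ i, q i ≠ 0 := Finset.prod_ne_zero_iff.mpr fun i _ => hq i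
  have hA : ∏ i ∈ A, q i ≠ 0 := Finset.prod_ne_zero_iff.mpr fun i _ => hq i
  have hB : ∏ i ∈ B, q i ≠ 0 := Finset.prod_ne_zero_iff.mpr fun i _ => hq i
  have hAc : (∏ i ∈ A, q i) * ∏ i ∈ Aᶜ, q i = ∏ i, q i := Finset.prod_mul_prod_compl A q
  have hBc : (∏ i ∈ B, q i) * ∏ i ∈ Bᶜ, q i = ∏ i, q i := Finset.prod_mul_prod_compl B q
  unfold dual
  by_cases hlA : l ∈ A <;> by_cases hlB : l ∈ B
  · simp only [hlA, hlB, if_true]
    have h1 := hasPoint_translate_q _ _ _ hn (mul_ne_zero (neg_ne_zero.mpr hn)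
      (mul_ne_zero hu hB)) (hasPoint_translate_zero _ _ _ hn (mul_ne_zero hu hA) h)
    refine hasPoint_sq _ _ _ _ _ hA hB ?_
    convert h1 using 1
    · rw [← hAc]; ring
    · rw [← hBc]; ring
  · simp only [hlA, hlB, if_true, if_false]
    have h1 := hasPoint_translate_q _ _ _ hn (mul_ne_zero hu hB) h
    refine hasPoint_sq _ _ _ _ _ hA one_ne_zero ?_
    convert h1 using 1
    · rw [← hAc]; ring
    · ring
  · simp only [hlA, hlB, if_true, if_false]
    have h1 := hasPoint_translate_zero _ _ _ hn (mul_ne_zero hu hA) h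
    refine hasPoint_sq _ _ _ _ _ one_ne_zero hB ?_
    convert h1 using 1
    · ring
    · rw [← hBc]; ring
  · simp only [hlA, hlB, if_false]
    convert h using 1 <;> ring

end field

variable {K : Type*} [Field K] [NumberField K] {ι : Type*} [Fintype ι] [DecidableEq ι]

omit [NumberField K] in
/-- The prime element q l does not divide the dual products. -/
theorem not_dvd_dual {q : ι → 𝓞 K} (hq : ∀ i, Prime (q i))
    (hqq : ∀ i j, i ≠ j → ¬ Associated (q i) (q j)) (l : ι) (A : Finset ι) :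
    ¬ q l ∣ dual q l A := by
  unfold dual
  intro h
  obtain ⟨i, hi, hdvd⟩ := (hq l).exists_mem_finset_dvd h
  have hil : i ≠ l := by
    rintro rfl
    split_ifs at hi with h1
    · exact (Finset.mem_compl.mp hi) h1
    · exact h1 hi
  exact hqq l i (Ne.symm hil) ((hq l).associated_of_dvd (hq i) hdvd)

/-- The residue conditions at q l. -/
theorem residues {q : ι → 𝓞 K} (hq : ∀ i, Prime (q i))
    (hqq : ∀ i j, i ≠ j → ¬ Associated (q i) (q j)) (l : ι) (hl2 : ¬ q l ∣ 2)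
    (u : (𝓞 K)ˣ) (A B : Finset ι)
    (hn : ¬ IsSquare ((placeOf (q l) (hq l)).valuation K (algebraMap (𝓞 K) K (∏ i, q i))))
    (h : HasPoint (algebraMap K ((placeOf (q l) (hq l)).adicCompletion K)
        (algebraMap (𝓞 K) K (∏ i, q i)))
      (algebraMap K ((placeOf (q l) (hq l)).adicCompletion K)
        (algebraMap (𝓞 K) K ((u : 𝓞 K) * ∏ i ∈ A, q i)))
      (algebraMap K ((placeOf (q l) (hq l)).adicCompletion K)
        (algebraMap (𝓞 K) K ((u : 𝓞 K) * ∏ i ∈ B, q i)))) :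
    (∃ m : 𝓞 K, q l ∣ (if l ∈ B then -1 else 1) * (u : 𝓞 K) * dual q l A - m ^ 2) ∧
    (∃ m : 𝓞 K, q l ∣ (if l ∈ B then -1 else 1) * (if l ∈ A then 2 else 1) * (u : 𝓞 K) *
      dual q l B - m ^ 2) := by
  obtain ⟨φ, hφ⟩ : ∃ φ : 𝓞 K →+* (placeOf (q l) (hq l)).adicCompletion K,
      φ = (algebraMap K ((placeOf (q l) (hq l)).adicCompletion K)).comp (algebraMap (𝓞 K) K) :=
    ⟨_, rfl⟩
  have hφinj : Function.Injective φ := by
    rw [hφ, RingHom.coe_comp]
    exact (algebraMap K _).injective.comp (FaithfulSMul.algebraMap_injective (𝓞 K) K)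
  have hφ' : ∀ x : 𝓞 K, algebraMap K ((placeOf (q l) (hq l)).adicCompletion K)
      (algebraMap (𝓞 K) K x) = φ x := by
    intro x; rw [hφ]; rfl
  have hq0 : ∀ i, φ (q i) ≠ 0 := fun i => by
    rw [Ne, map_eq_zero_iff φ hφinj]; exact (hq i).ne_zero
  have hu0 : φ (u : 𝓞 K) ≠ 0 := by
    rw [Ne, map_eq_zero_iff φ hφinj]; exact u.ne_zero
  have hdual : ∀ C : Finset ι, dual (fun i => φ (q i)) l C = φ (dual q l C) := by
    intro C
    unfold dual
    rw [map_prod]
  have h1 := hasPoint_dual (fun i => φ (q i)) hq0 (φ (u : 𝓞 K)) hu0 A B l (by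
    rw [hφ', hφ', hφ', map_mul, map_mul, map_prod, map_prod, map_prod] at h
    exact h)
  rw [hdual, hdual, ← map_prod] at h1
  have hunit : ∀ x : 𝓞 K, IsUnit x → ¬ q l ∣ x := fun x hx hd =>
    (hq l).not_isUnit (isUnit_of_dvd_unit hd hx)
  have hs : ¬ q l ∣ (if l ∈ B then (-1 : 𝓞 K) else 1) := by
    split_ifs
    · exact hunit _ isUnit_one.neg
    · exact hunit _ isUnit_one
  have ht : ¬ q l ∣ (if l ∈ A then (2 : 𝓞 K) else 1) := by
    split_ifs
    · exact hl2
    · exact hunit _ isUnit_one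
  have hu : ¬ q l ∣ (u : 𝓞 K) := hunit _ u.isUnit
  refine sq_mod_of_hasPoint (q l) (hq l) hl2 _ hn _ _ ?_ ?_ ?_
  · intro hd
    rcases (hq l).dvd_or_dvd hd with hd | hd
    · rcases (hq l).dvd_or_dvd hd with hd | hd
      · exact hs hd
      · exact hu hd
    · exact not_dvd_dual hq hqq l A hd
  · intro hd
    rcases (hq l).dvd_or_dvd hd with hd | hd
    · rcases (hq l).dvd_or_dvd hd with hd | hd
      · rcases (hq l).dvd_or_dvd hd with hd | hd
        · exact hs hd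
        · exact ht hd
      · exact hu hd
    · exact not_dvd_dual hq hqq l B hd
  · rw [hφ', hφ', hφ']
    have e1 : φ (if l ∈ B then (-1 : 𝓞 K) else 1) = if l ∈ B then -1 else 1 := by
      split_ifs
      · rw [map_neg, map_one]
      · exact map_one φ
    have e2 : φ (if l ∈ A then (2 : 𝓞 K) else 1) = if l ∈ A then 2 else 1 := by
      split_ifs
      · exact map_ofNat φ 2
      · exact map_one φ
    rw [map_mul, map_mul, map_mul, map_mul, map_mul, e1, e2]
    exact h1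

/-- The valuations of n at the places of its prime factors. -/
theorem val_prod_self {q : ι → 𝓞 K} (hq : ∀ i, Prime (q i))
    (hqq : ∀ i j, i ≠ j → ¬ Associated (q i) (q j)) (l : ι) :
    (placeOf (q l) (hq l)).valuation K (algebraMap (𝓞 K) K (∏ i, q i)) = exp (-1 : ℤ) := by
  rw [← Finset.mul_prod_erase Finset.univ q (Finset.mem_univ l), map_mul, map_mul, val_self]
  have : (placeOf (q l) (hq l)).valuation K
      (algebraMap (𝓞 K) K (∏ i ∈ Finset.univ.erase l, q i)) = 1 := by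
    apply val_eq_one
    rw [mem_placeOf]
    intro h
    obtain ⟨i, hi, hdvd⟩ := (hq l).exists_mem_finset_dvd h
    exact hqq l i (Ne.symm (Finset.ne_of_mem_erase hi))
      ((hq l).associated_of_dvd (hq i) hdvd)
  rw [this, mul_one]

omit [Fintype ι] [DecidableEq ι] in
theorem val_prod_other {q : ι → 𝓞 K} (hq : ∀ i, Prime (q i)) (v : HeightOneSpectrum (𝓞 K))
    (hv : ∀ i, v ≠ placeOf (q i) (hq i)) (A : Finset ι) :
    v.valuation K (algebraMap (𝓞 K) K (∏ i ∈ A, q i)) = 1 := by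
  apply val_eq_one
  intro h
  obtain ⟨i, _, hi⟩ := (Ideal.IsPrime.prod_mem_iff (hp := v.isPrime)).mp h
  exact notMem_of_ne (hq i) (hv i) hi

/-- The case where the parities of the valuations of a and b agree at 2. -/
theorem core (hclass : Odd (NumberField.classNumber K))
    (hpos : ∀ u : (𝓞 K)ˣ, (∀ f : K →+* ℝ, 0 < f (algebraMap (𝓞 K) K (u : 𝓞 K))) → IsSquare u)
    (h2 : Prime (2 : 𝓞 K)) (q : ι → 𝓞 K) (hq : ∀ i, Prime (q i))
    (hqq : ∀ i j, i ≠ j → ¬ Associated (q i) (q j))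
    (hqpos : ∀ i, ∀ f : K →+* ℝ, 0 < f (algebraMap (𝓞 K) K (q i)))
    (hq2 : ∀ i, ¬ 2 ∣ q i) (c e : 𝓞 K) (hne : 4 ∣ ∏ i, q i - c ^ 2 * (1 + 2 * e))
    (a b : K) (ha : a ≠ 0) (hb : b ≠ 0)
    (hab2 : IsSquare ((placeOf 2 h2).valuation K a * (placeOf 2 h2).valuation K b))
    (h : SelmerPair K (algebraMap (𝓞 K) K (∏ i, q i)) a b) :
    ∃ (A B : Finset ι) (u : (𝓞 K)ˣ) (t : 𝓞 K) (r s : K), r ≠ 0 ∧ s ≠ 0 ∧
      a = algebraMap (𝓞 K) K ((u : 𝓞 K) * ∏ i ∈ A, q i) * r ^ 2 ∧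
      b = algebraMap (𝓞 K) K ((u : 𝓞 K) * ∏ i ∈ B, q i) * s ^ 2 ∧
      IsClass q e A B (u : 𝓞 K) t := by
  classical
  have h20 : (algebraMap (𝓞 K) K 2) = 2 := map_ofNat _ _
  have hq2' : ∀ i, ¬ q i ∣ 2 := by
    intro i hd
    exact hq2 i ((hq i).associated_of_dvd h2 hd).symm.dvd
  have h2n : ∀ A : Finset ι, ¬ (2 : 𝓞 K) ∣ ∏ i ∈ A, q i := by
    intro A hd
    obtain ⟨i, _, hi⟩ := h2.exists_mem_finset_dvd hd
    exact hq2 i hi
  have hv2q : ∀ i, placeOf 2 h2 ≠ placeOf (q i) (hq i) := by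
    intro i heq
    have : (2 : 𝓞 K) ∈ (placeOf 2 h2).asIdeal := by rw [mem_placeOf]
    rw [heq, mem_placeOf] at this
    exact hq2' i this
  -- valuations away from 2 and the q i
  have haway : ∀ v : HeightOneSpectrum (𝓞 K), v ≠ placeOf 2 h2 →
      (∀ i, v ≠ placeOf (q i) (hq i)) →
      IsSquare (v.valuation K a) ∧ IsSquare (v.valuation K b) := by
    intro v hv hvq
    have h2v : v.valuation K (2 : K) = 1 := by
      rw [← h20]; exact val_eq_one v (notMem_of_ne h2 hv)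
    have key := isSquare_away (Valued.v : Valuation (v.adicCompletion K) _)
      (algebraMap K (v.adicCompletion K) (algebraMap (𝓞 K) K (∏ i, q i)))
      (algebraMap K (v.adicCompletion K) a) (algebraMap K (v.adicCompletion K) b)
      ((map_ne_zero _).mpr ha) ((map_ne_zero _).mpr hb)
      (by rw [← map_ofNat (algebraMap K (v.adicCompletion K)) 2, val_completion]; exact h2v)
      (by rw [val_completion]; exact val_prod_other hq v hvq Finset.univ) (h.1 v)
    rw [val_completion, val_completion] at key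
    exact key
  -- the place 2
  have hva2 : IsSquare ((placeOf 2 h2).valuation K a) := by
    by_contra hcon
    refine no_point_odd_pair (Valued.v : Valuation ((placeOf 2 h2).adicCompletion K) _) _ _ _
      ((map_ne_zero _).mpr ha) ((map_ne_zero _).mpr hb) ?_ ?_ ?_ (h.1 (placeOf 2 h2))
    · rw [val_completion, val_completion]; exact hab2
    · rw [val_completion]; exact hcon
    · rw [val_completion]; exact val_prod_other hq _ hv2q Finset.univ
  have hvb2 : IsSquare ((placeOf 2 h2).valuation K b) := by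
    have h1 : (placeOf 2 h2).valuation K a ≠ 0 := (Valuation.ne_zero_iff _).mpr ha
    have h3 : (placeOf 2 h2).valuation K b =
        ((placeOf 2 h2).valuation K a * (placeOf 2 h2).valuation K b) /
          (placeOf 2 h2).valuation K a := by
      rw [mul_comm, mul_div_assoc, div_self h1, mul_one]
    rw [h3]
    exact hab2.div hva2
  obtain ⟨A, u, r, hr, har, _⟩ := exists_unit_prod_sq hclass q hq hqq a ha (fun v hv => by
    by_cases hv2 : v = placeOf 2 h2
    · rw [hv2]; exact hva2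
    · exact (haway v hv2 hv).1)
  obtain ⟨B, w, s, hs, hbs, _⟩ := exists_unit_prod_sq hclass q hq hqq b hb (fun v hv => by
    by_cases hv2 : v = placeOf 2 h2
    · rw [hv2]; exact hvb2
    · exact (haway v hv2 hv).2)
  -- real places
  have hprodpos : ∀ (C : Finset ι) (f : K →+* ℝ), 0 < f (algebraMap (𝓞 K) K (∏ i ∈ C, q i)) := by
    intro C f
    rw [map_prod, map_prod]
    exact Finset.prod_pos fun i _ => hqpos i f
  have hreal : ∀ f : K →+* ℝ, 0 < f a * f b := fun f =>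
    real_pos (f (algebraMap (𝓞 K) K (∏ i, q i))) (f a) (f b) (hprodpos Finset.univ f)
      ((map_ne_zero f).mpr ha) ((map_ne_zero f).mpr hb) (h.2 f)
  have huw : IsSquare (u * w) := by
    apply hpos
    intro f
    have hf := hreal f
    have hfr : 0 < f r ^ 2 := by
      have : f r ≠ 0 := (map_ne_zero f).mpr hr
      positivity
    have hfs : 0 < f s ^ 2 := by
      have : f s ≠ 0 := (map_ne_zero f).mpr hs
      positivity
    have hA0 := hprodpos A f
    have hB0 := hprodpos B f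
    rw [Units.val_mul, map_mul, map_mul]
    rw [har, hbs] at hf
    simp only [map_mul, map_pow] at hf hA0 hB0
    have hprod : 0 < f r ^ 2 * f s ^ 2 * (f (algebraMap (𝓞 K) K (∏ i ∈ A, q i)) *
        f (algebraMap (𝓞 K) K (∏ i ∈ B, q i))) := by positivity
    by_contra hneg
    nlinarith [mul_nonneg (neg_nonneg.mpr (not_lt.mp hneg)) hprod.le]
  obtain ⟨η, hη⟩ := huw
  have hu0 : algebraMap (𝓞 K) K (u : 𝓞 K) ≠ 0 := by simp
  have hη0 : algebraMap (𝓞 K) K (η : 𝓞 K) ≠ 0 := by simp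
  have hη' : algebraMap (𝓞 K) K (u : 𝓞 K) * algebraMap (𝓞 K) K (w : 𝓞 K) =
      algebraMap (𝓞 K) K (η : 𝓞 K) ^ 2 := by
    rw [← map_mul, ← Units.val_mul, hη, Units.val_mul, map_mul]; ring
  obtain ⟨s', hs'⟩ : ∃ s', s' = s * algebraMap (𝓞 K) K (η : 𝓞 K) /
      algebraMap (𝓞 K) K (u : 𝓞 K) := ⟨_, rfl⟩
  have hs'0 : s' ≠ 0 := by
    rw [hs']; exact div_ne_zero (mul_ne_zero hs hη0) hu0
  have hbs' : b = algebraMap (𝓞 K) K ((u : 𝓞 K) * ∏ i ∈ B, q i) * s' ^ 2 := by
    rw [hbs, hs', map_mul, map_mul]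
    field_simp
    linear_combination (algebraMap (𝓞 K) K (∏ i ∈ B, q i)) * hη'
  have hpt : ∀ v : HeightOneSpectrum (𝓞 K),
      HasPoint (algebraMap K (v.adicCompletion K) (algebraMap (𝓞 K) K (∏ i, q i)))
        (algebraMap K (v.adicCompletion K) (algebraMap (𝓞 K) K ((u : 𝓞 K) * ∏ i ∈ A, q i)))
        (algebraMap K (v.adicCompletion K) (algebraMap (𝓞 K) K ((u : 𝓞 K) * ∏ i ∈ B, q i))) := by
    intro v
    refine hasPoint_sq _ _ _ (algebraMap K (v.adicCompletion K) r)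
      (algebraMap K (v.adicCompletion K) s') ((map_ne_zero _).mpr hr)
      ((map_ne_zero _).mpr hs'0) ?_
    rw [← map_pow, ← map_pow, ← map_mul, ← map_mul, ← har, ← hbs']
    exact h.1 v
  have h2u : ∀ C : Finset ι, ¬ (2 : 𝓞 K) ∣ (u : 𝓞 K) * ∏ i ∈ C, q i := by
    intro C hd
    rcases h2.dvd_or_dvd hd with hd | hd
    · exact h2.not_isUnit (isUnit_of_dvd_unit hd u.isUnit)
    · exact h2n C hd
  obtain ⟨t, g, k, hg, hk, hAt, hBt⟩ := class_of_hasPoint h2 (∏ i, q i) c e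
    (h2n Finset.univ) hne _ _ (h2u A) (h2u B) (hpt (placeOf 2 h2))
  refine ⟨A, B, u, t, r, s', hr, hs'0, har, hbs', ⟨g, hg, hAt⟩, ⟨k, hk, hBt⟩, ?_⟩
  intro l
  exact residues hq hqq l (hq2' l) u A B (by
    rw [val_prod_self hq hqq l]; exact not_isSquare_exp_neg_one) (hpt _)

/-- If 2 is a prime element, then -1 is not a square. -/
theorem neg_one_not_square (h2 : Prime (2 : 𝓞 K)) (x : K) : x ^ 2 ≠ -1 := by
  intro hx
  have hint : IsIntegral (𝓞 K) x := by
    refine IsIntegral.of_pow zero_lt_two ?_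
    rw [hx]
    exact isIntegral_one.neg
  obtain ⟨z, hz⟩ := IsIntegrallyClosed.isIntegral_iff.mp hint
  have hz2 : z ^ 2 = -1 := by
    apply FaithfulSMul.algebraMap_injective (𝓞 K) K
    rw [map_pow, hz, hx, map_neg, map_one]
  have h1 : (2 : 𝓞 K) ∣ (1 + z) ^ 2 := ⟨z, by linear_combination hz2⟩
  obtain ⟨y, hy⟩ := h2.dvd_of_dvd_pow h1
  have h3 : (2 : 𝓞 K) * z = 2 * (2 * y ^ 2) := by
    have h4 : (1 + z) ^ 2 = 4 * y ^ 2 := by rw [hy]; ring
    linear_combination h4 - hz2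
  have h4 : z = 2 * y ^ 2 := mul_left_cancel₀ two_ne_zero h3
  apply h2.not_isUnit
  apply isUnit_of_mul_isUnit_left (y := -(y ^ 2 * z))
  have : (2 : 𝓞 K) * -(y ^ 2 * z) = 1 := by linear_combination (-z) * hz2 * 0 - z * h4 * (-1) - hz2
  rw [this]
  exact isUnit_one

/-- The two representatives of a Selmer pair that satisfy the residue conditions; they differ by
the torsion point (0, 0). -/
theorem selmer_two (hclass : Odd (NumberField.classNumber K))
    (hpos : ∀ u : (𝓞 K)ˣ, (∀ f : K →+* ℝ, 0 < f (algebraMap (𝓞 K) K (u : 𝓞 K))) → IsSquare u)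
    (h2 : Prime (2 : 𝓞 K)) (q : ι → 𝓞 K) (hq : ∀ i, Prime (q i))
    (hqq : ∀ i j, i ≠ j → ¬ Associated (q i) (q j))
    (hqpos : ∀ i, ∀ f : K →+* ℝ, 0 < f (algebraMap (𝓞 K) K (q i)))
    (hq2 : ∀ i, ¬ 2 ∣ q i) (c e : 𝓞 K) (hne : 4 ∣ ∏ i, q i - c ^ 2 * (1 + 2 * e))
    (a b : K) (ha : a ≠ 0) (hb : b ≠ 0)
    (h : SelmerPair K (algebraMap (𝓞 K) K (∏ i, q i)) a b) :
    ∃ (A B : Bool → Finset ι) (u : Bool → (𝓞 K)ˣ) (t : Bool → 𝓞 K),
      (∀ j, IsClass q e (A j) (B j) (u j : 𝓞 K) (t j) ∧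
        TorsionPair (algebraMap (𝓞 K) K (∏ i, q i))
          (a * algebraMap (𝓞 K) K ((u j : 𝓞 K) * ∏ i ∈ A j, q i))
          (b * algebraMap (𝓞 K) K ((u j : 𝓞 K) * ∏ i ∈ B j, q i))) ∧
      ∀ x : K, algebraMap (𝓞 K) K (((u false : 𝓞 K) * ∏ i ∈ A false, q i) *
        ((u true : 𝓞 K) * ∏ i ∈ A true, q i)) ≠ x ^ 2 := by
  classical
  have h20 : (algebraMap (𝓞 K) K 2) = 2 := map_ofNat _ _
  obtain ⟨n, hndef⟩ : ∃ n, n = algebraMap (𝓞 K) K (∏ i, q i) := ⟨_, rfl⟩
  have hn0 : n ≠ 0 := by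
    rw [hndef]
    rw [Ne, map_eq_zero_iff _ (FaithfulSMul.algebraMap_injective (𝓞 K) K)]
    exact Finset.prod_ne_zero_iff.mpr fun i _ => (hq i).ne_zero
  have hq2' : ∀ i, ¬ q i ∣ 2 := by
    intro i hd
    exact hq2 i ((hq i).associated_of_dvd h2 hd).symm.dvd
  have hv2q : ∀ i, placeOf 2 h2 ≠ placeOf (q i) (hq i) := by
    intro i heq
    have : (2 : 𝓞 K) ∈ (placeOf 2 h2).asIdeal := by rw [mem_placeOf]
    rw [heq, mem_placeOf] at this
    exact hq2' i this
  have hn2 : (placeOf 2 h2).valuation K n = 1 := by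
    rw [hndef]; exact val_prod_other hq _ hv2q Finset.univ
  have h22 : (placeOf 2 h2).valuation K 2 = exp (-1 : ℤ) := by
    rw [← h20]; exact val_self h2
  rw [← hndef] at h
  -- the case of even valuation of a b at 2
  have main : ∀ a b : K, a ≠ 0 → b ≠ 0 → SelmerPair K n a b →
      IsSquare ((placeOf 2 h2).valuation K a * (placeOf 2 h2).valuation K b) →
      ∃ (A B : Bool → Finset ι) (u : Bool → (𝓞 K)ˣ) (t : Bool → 𝓞 K),
        (∀ j, IsClass q e (A j) (B j) (u j : 𝓞 K) (t j) ∧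
          TorsionPair n (a * algebraMap (𝓞 K) K ((u j : 𝓞 K) * ∏ i ∈ A j, q i))
            (b * algebraMap (𝓞 K) K ((u j : 𝓞 K) * ∏ i ∈ B j, q i))) ∧
        ∀ x : K, algebraMap (𝓞 K) K (((u false : 𝓞 K) * ∏ i ∈ A false, q i) *
          ((u true : 𝓞 K) * ∏ i ∈ A true, q i)) ≠ x ^ 2 := by
    intro a b ha hb h hab2
    have h' := h.translate_zero hn0 ha
    rw [hndef] at h
    obtain ⟨A, B, u, t, r, s, hr, hs, har, hbs, hcl⟩ := core hclass hpos h2 q hq hqq
      hqpos hq2 c e hne a b ha hb hab2 h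
    have hA0 : algebraMap (𝓞 K) K ((u : 𝓞 K) * ∏ i ∈ A, q i) ≠ 0 := by
      intro h0; rw [h0, zero_mul] at har; exact ha har
    have hB0 : algebraMap (𝓞 K) K ((u : 𝓞 K) * ∏ i ∈ B, q i) ≠ 0 := by
      intro h0; rw [h0, zero_mul] at hbs; exact hb hbs
    have hab2' : IsSquare ((placeOf 2 h2).valuation K (-a) *
        (placeOf 2 h2).valuation K (-n * b)) := by
      rw [Valuation.map_neg, map_mul, Valuation.map_neg, hn2, one_mul]
      exact hab2
    nth_rewrite 1 [hndef] at h'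
    obtain ⟨A', B', u', t', r', s', hr', hs', har', hbs', hcl'⟩ := core hclass hpos h2 q hq hqq
      hqpos hq2 c e hne (-a) (-n * b) (neg_ne_zero.mpr ha)
      (mul_ne_zero (neg_ne_zero.mpr hn0) hb) hab2' h'
    have hA0' : algebraMap (𝓞 K) K ((u' : 𝓞 K) * ∏ i ∈ A', q i) ≠ 0 := by
      intro h0; rw [h0, zero_mul] at har'; exact neg_ne_zero.mpr ha har'
    have hB0' : algebraMap (𝓞 K) K ((u' : 𝓞 K) * ∏ i ∈ B', q i) ≠ 0 := by
      intro h0; rw [h0, zero_mul] at hbs'
      exact mul_ne_zero (neg_ne_zero.mpr hn0) hb hbs'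
    refine ⟨fun j => bif j then A' else A, fun j => bif j then B' else B,
      fun j => bif j then u' else u, fun j => bif j then t' else t, ?_, ?_⟩
    · intro j
      cases j
      · exact ⟨hcl, _, _, mul_ne_zero hA0 hr, mul_ne_zero hB0 hs,
          Or.inl ⟨by simp only [cond_false]; rw [har]; ring,
            by simp only [cond_false]; rw [hbs]; ring⟩⟩
      · refine ⟨hcl', algebraMap (𝓞 K) K ((u' : 𝓞 K) * ∏ i ∈ A', q i) * r',
          algebraMap (𝓞 K) K ((u' : 𝓞 K) * ∏ i ∈ B', q i) * s' / n, mul_ne_zero hA0' hr',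
          div_ne_zero (mul_ne_zero hB0' hs') hn0, Or.inr (Or.inl ⟨?_, ?_⟩)⟩
        · simp only [cond_true]
          linear_combination (-algebraMap (𝓞 K) K ((u' : 𝓞 K) * ∏ i ∈ A', q i)) * har'
        · simp only [cond_true]
          field_simp
          linear_combination (-1 : K) * hbs'
    · intro x hx
      simp only [cond_true, cond_false] at hx
      rw [map_mul] at hx
      apply neg_one_not_square h2 (x * r * r' / a)
      have h5 : (x * r * r' / a) ^ 2 = (x ^ 2) * r ^ 2 * r' ^ 2 / a ^ 2 := by ring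
      rw [h5, ← hx]
      have h6 : algebraMap (𝓞 K) K ((u : 𝓞 K) * ∏ i ∈ A, q i) *
          algebraMap (𝓞 K) K ((u' : 𝓞 K) * ∏ i ∈ A', q i) * r ^ 2 * r' ^ 2 = a * (-a) := by
        rw [har']
        linear_combination
          (-(algebraMap (𝓞 K) K ((u' : 𝓞 K) * ∏ i ∈ A', q i) * r' ^ 2)) * har
      rw [h6]
      field_simp
  rw [← hndef]
  by_cases hab2 : IsSquare ((placeOf 2 h2).valuation K a * (placeOf 2 h2).valuation K b)
  · exact main a b ha hb h hab2
  · obtain ⟨A, B, u, t, hj, hx⟩ := main (n * a) (2 * b) (mul_ne_zero hn0 ha)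
      (mul_ne_zero two_ne_zero hb) (h.translate_q hn0 hb)
      (by
        rw [map_mul, map_mul, hn2, h22, one_mul]
        have hab0 : (placeOf 2 h2).valuation K a * (placeOf 2 h2).valuation K b ≠ 0 :=
          mul_ne_zero ((Valuation.ne_zero_iff _).mpr ha) ((Valuation.ne_zero_iff _).mpr hb)
        rcases isSquare_or hab0 with h1 | h1
        · exact absurd h1 hab2
        · rw [mul_left_comm]; exact h1)
    refine ⟨A, B, u, t, fun j => ⟨(hj j).1, ?_⟩, hx⟩
    have hn2' : TorsionPair n n 2 :=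
      ⟨1, 1, one_ne_zero, one_ne_zero, Or.inr (Or.inr (Or.inl ⟨by ring, by ring⟩))⟩
    have h5 := hn2'.mul two_ne_zero hn0 (hj j).2
    refine TorsionPair.of_mul_sq hn0 two_ne_zero ?_
    convert h5 using 1 <;> ring

end Pool.Agent.MP009fd8M
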