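import Pool.Agent.Lib.MP_009fd8_agM.Main
import Pool.Agent.Lib.MP_009fd8_ag.FourSq

/-!
MP_009fd8_ag, ManyPrimes: final count.
-/

namespace Pool.Agent.MP009fd8M

open IsDedekindDomain NumberField WithZero Pool.Agent.MP009fd8

variable {K : Type*} [Field K] [NumberField K] {ι : Type*} [Fintype ι] [DecidableEq ι]

/-- The set of the classes (A, B, t modulo 2) for which some unit u satisfies the residue
conditions. -/
def classes (q : ι → 𝓞 K) (e : 𝓞 K) :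
    Set (Finset ι × Finset ι × (𝓞 K ⧸ Ideal.span {(2 : 𝓞 K)})) :=
  {z | ∃ (u : (𝓞 K)ˣ) (t : 𝓞 K), Ideal.Quotient.mk _ t = z.2.2 ∧
    IsClass q e z.1 z.2.1 (u : 𝓞 K) t}

theorem classes_finite (q : ι → 𝓞 K) (e : 𝓞 K) : (classes q e).Finite := by
  have : Finite (𝓞 K ⧸ Ideal.span {(2 : 𝓞 K)}) := by
    apply Ideal.finiteQuotientOfFreeOfNeBot
    rw [Ne, Ideal.span_singleton_eq_bot]
    exact two_ne_zero
  exact Set.toFinite _

/-- An odd element is invertible modulo 4. -/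
theorem exists_inv_mod_four (h2 : Prime (2 : 𝓞 K)) {x : 𝓞 K}
    (hx : ¬ 2 ∣ x) : ∃ y : 𝓞 K, 4 ∣ x * y - 1 := by
  have hmax : (Ideal.span {(2 : 𝓞 K)}).IsMaximal := (placeOf 2 h2).isMaximal
  have h1 : x ∉ Ideal.span {(2 : 𝓞 K)} := by
    rw [Ideal.mem_span_singleton]; exact hx
  obtain ⟨y, i, hi, hy⟩ := hmax.exists_inv h1
  rw [Ideal.mem_span_singleton] at hi
  obtain ⟨k, hk⟩ := hi
  refine ⟨y * (1 + 2 * k), ⟨-k ^ 2, ?_⟩⟩
  rw [hk] at hy
  linear_combination (1 + 2 * k) * hy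

/-- Two units with the same class differ by a square. -/
theorem isSquare_of_isClass
    (hfour : ∀ u : (𝓞 K)ˣ, (∃ m : 𝓞 K, (4 : 𝓞 K) ∣ (u : 𝓞 K) - m ^ 2) → IsSquare u)
    (h2 : Prime (2 : 𝓞 K)) {q : ι → 𝓞 K} (hq2 : ∀ i, ¬ 2 ∣ q i) {e : 𝓞 K} {A B : Finset ι}
    {u u' : (𝓞 K)ˣ} {t t' : 𝓞 K} (h : IsClass q e A B (u : 𝓞 K) t)
    (h' : IsClass q e A B (u' : 𝓞 K) t') (htt : 2 ∣ t - t') : IsSquare (u * u') := by
  obtain ⟨⟨g, _, k, hk⟩, _⟩ := h
  obtain ⟨⟨g', _, k', hk'⟩, _⟩ := h'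
  obtain ⟨d, hd⟩ := htt
  obtain ⟨P, hP⟩ : ∃ P, P = ∏ i ∈ A, q i := ⟨_, rfl⟩
  have hP2 : ¬ 2 ∣ P := by
    rw [hP]
    intro hd
    obtain ⟨i, _, hi⟩ := h2.exists_mem_finset_dvd hd
    exact hq2 i hi
  obtain ⟨y, z, hz⟩ := exists_inv_mod_four h2 hP2
  rw [← hP] at hk hk'
  apply hfour
  refine ⟨y * (g * g' * (1 + 2 * t ^ 2)), ?_⟩
  rw [Units.val_mul]
  have e1 : (u : 𝓞 K) * P = g ^ 2 * (1 + 2 * t ^ 2) + 4 * k := by linear_combination hk
  have e2 : (u' : 𝓞 K) * P = g' ^ 2 * (1 + 2 * t' ^ 2) + 4 * k' := by linear_combination hk'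
  have e3 : t' = t - 2 * d := by linear_combination -hd
  have e4 : (u : 𝓞 K) * P * ((u' : 𝓞 K) * P) - (g * g' * (1 + 2 * t ^ 2)) ^ 2 =
      4 * (g ^ 2 * (1 + 2 * t ^ 2) * (g' ^ 2 * (-2 * t * d + 2 * d ^ 2) + k')
          + k * (g' ^ 2 * (1 + 2 * (t - 2 * d) ^ 2) + 4 * k')) := by
    rw [e1, e2, e3]; ring
  obtain ⟨M, hM⟩ : ∃ M, M = g ^ 2 * (1 + 2 * t ^ 2) * (g' ^ 2 * (-2 * t * d + 2 * d ^ 2) + k')
          + k * (g' ^ 2 * (1 + 2 * (t - 2 * d) ^ 2) + 4 * k') := ⟨_, rfl⟩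
  rw [← hM] at e4
  have e5 : P * y = 1 + 4 * z := by linear_combination hz
  refine ⟨y ^ 2 * M - (u : 𝓞 K) * u' * z * (P * y + 1), ?_⟩
  linear_combination y ^ 2 * e4 - (u : 𝓞 K) * u' * (P * y + 1) * e5

/-- The pigeonhole argument. -/
theorem uniform (hclass : Odd (NumberField.classNumber K))
    (hpos : ∀ u : (𝓞 K)ˣ, (∀ f : K →+* ℝ, 0 < f (algebraMap (𝓞 K) K (u : 𝓞 K))) → IsSquare u)
    (hfour : ∀ u : (𝓞 K)ˣ, (∃ m : 𝓞 K, (4 : 𝓞 K) ∣ (u : 𝓞 K) - m ^ 2) → IsSquare u)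
    (h2 : Prime (2 : 𝓞 K)) (q : ι → 𝓞 K) (hq : ∀ i, Prime (q i))
    (hqq : ∀ i j, i ≠ j → ¬ Associated (q i) (q j))
    (hqpos : ∀ i, ∀ f : K →+* ℝ, 0 < f (algebraMap (𝓞 K) K (q i)))
    (hq2 : ∀ i, ¬ 2 ∣ q i) (c e : 𝓞 K) (hne : 4 ∣ ∏ i, q i - c ^ 2 * (1 + 2 * e))
    (P : Finset (K × K)) (hP0 : ∀ p ∈ P, p.1 ≠ 0 ∧ p.2 ≠ 0)
    (hP : ∀ p ∈ P, HasPoint (algebraMap (𝓞 K) K (∏ i, q i)) p.1 p.2)
    (hPne : ∀ p ∈ P, ∀ p' ∈ P, p ≠ p' →
      ¬ TorsionPair (algebraMap (𝓞 K) K (∏ i, q i)) (p.1 * p'.1) (p.2 * p'.2))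
    (hcard : (classes q e).ncard ≤ 2 * P.card)
    (a b : K) (ha : a ≠ 0) (hb : b ≠ 0)
    (h : SelmerPair K (algebraMap (𝓞 K) K (∏ i, q i)) a b) :
    ∃ p ∈ P, TorsionPair (algebraMap (𝓞 K) K (∏ i, q i)) (a * p.1) (b * p.2) := by
  classical
  by_contra hcon
  push Not at hcon
  have hn0 : algebraMap (𝓞 K) K (∏ i, q i) ≠ 0 := by
    rw [Ne, map_eq_zero_iff _ (FaithfulSMul.algebraMap_injective (𝓞 K) K)]
    exact Finset.prod_ne_zero_iff.mpr fun i _ => (hq i).ne_zero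
  have hC0 : ∀ C : Finset ι, algebraMap (𝓞 K) K (∏ i ∈ C, q i) ≠ 0 := by
    intro C
    rw [Ne, map_eq_zero_iff _ (FaithfulSMul.algebraMap_injective (𝓞 K) K)]
    exact Finset.prod_ne_zero_iff.mpr fun i _ => (hq i).ne_zero
  -- the set of all pairs considered
  have hab : (a, b) ∉ P := by
    intro hmem
    exact hcon _ hmem ⟨a, b, ha, hb, Or.inl ⟨by ring, by ring⟩⟩
  have hS : ∀ x ∈ insert (a, b) P,
      ∃ (A B : Bool → Finset ι) (u : Bool → (𝓞 K)ˣ) (t : Bool → 𝓞 K),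
      (∀ j, IsClass q e (A j) (B j) (u j : 𝓞 K) (t j) ∧
        TorsionPair (algebraMap (𝓞 K) K (∏ i, q i))
          (x.1 * algebraMap (𝓞 K) K ((u j : 𝓞 K) * ∏ i ∈ A j, q i))
          (x.2 * algebraMap (𝓞 K) K ((u j : 𝓞 K) * ∏ i ∈ B j, q i))) ∧
      ∀ x : K, algebraMap (𝓞 K) K (((u false : 𝓞 K) * ∏ i ∈ A false, q i) *
        ((u true : 𝓞 K) * ∏ i ∈ A true, q i)) ≠ x ^ 2 := by
    intro x hx
    have hx' : x.1 ≠ 0 ∧ x.2 ≠ 0 ∧ SelmerPair K (algebraMap (𝓞 K) K (∏ i, q i)) x.1 x.2 := by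
      rcases Finset.mem_insert.1 hx with rfl | hx
      · exact ⟨ha, hb, h⟩
      · exact ⟨(hP0 x hx).1, (hP0 x hx).2, fun v => (hP x hx).map _, fun f => (hP x hx).map f⟩
    exact selmer_two hclass hpos h2 q hq hqq hqpos hq2 c e hne x.1 x.2 hx'.1 hx'.2.1 hx'.2.2
  choose! A B u t hT hns using hS
  have hle : ((insert (a, b) P) ×ˢ (Finset.univ : Finset Bool)).card ≤ (classes q e).ncard := by
    rw [← Set.ncard_coe_finset]
    refine Set.ncard_le_ncard_of_injOn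
      (fun x => (A x.1 x.2, B x.1 x.2, Ideal.Quotient.mk _ (t x.1 x.2))) ?_ ?_
      (classes_finite q e)
    · rintro ⟨x, j⟩ hx
      have hx' : x ∈ insert (a, b) P := by
        have : (x, j) ∈ (insert (a, b) P) ×ˢ (Finset.univ : Finset Bool) := by exact_mod_cast hx
        exact (Finset.mem_product.1 this).1
      exact ⟨u x j, t x j, rfl, (hT x hx' j).1⟩
    · rintro ⟨x, j⟩ hx ⟨x', j'⟩ hx' hxx
      have hx1 : x ∈ insert (a, b) P := by
        have : (x, j) ∈ (insert (a, b) P) ×ˢ (Finset.univ : Finset Bool) := by exact_mod_cast hx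
        exact (Finset.mem_product.1 this).1
      have hx1' : x' ∈ insert (a, b) P := by
        have : (x', j') ∈ (insert (a, b) P) ×ˢ (Finset.univ : Finset Bool) := by
          exact_mod_cast hx'
        exact (Finset.mem_product.1 this).1
      simp only [Prod.mk.injEq] at hxx
      obtain ⟨hAA, hBB, htt⟩ := hxx
      have hd : (2 : 𝓞 K) ∣ t x j - t x' j' := by
        rw [← Ideal.mem_span_singleton]
        exact Ideal.Quotient.eq.1 htt
      have hc1 := (hT x hx1 j).1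
      have hc1' := (hT x' hx1' j').1
      rw [← hAA, ← hBB] at hc1'
      obtain ⟨z, hz⟩ := isSquare_of_isClass hfour h2 hq2 hc1 hc1' hd
      have hz' : algebraMap (𝓞 K) K (u x j : 𝓞 K) * algebraMap (𝓞 K) K (u x' j' : 𝓞 K) =
          algebraMap (𝓞 K) K (z : 𝓞 K) ^ 2 := by
        rw [← map_mul, ← Units.val_mul, hz, Units.val_mul, map_mul]; ring
      have hz0 : algebraMap (𝓞 K) K (z : 𝓞 K) ≠ 0 := by simp
      have ht : TorsionPair (algebraMap (𝓞 K) K (∏ i, q i)) (x.1 * x'.1) (x.2 * x'.2) := by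
        have h5 := (hT x hx1 j).2.mul two_ne_zero hn0 (hT x' hx1' j').2
        rw [← hAA, ← hBB] at h5
        simp only [map_mul] at h5
        refine TorsionPair.of_mul_sq
          (t := algebraMap (𝓞 K) K (z : 𝓞 K) * algebraMap (𝓞 K) K (∏ i ∈ A x j, q i))
          (t' := algebraMap (𝓞 K) K (z : 𝓞 K) * algebraMap (𝓞 K) K (∏ i ∈ B x j, q i))
          (mul_ne_zero hz0 (hC0 _)) (mul_ne_zero hz0 (hC0 _)) ?_
        rw [mul_pow, mul_pow, ← hz']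
        convert h5 using 1 <;> ring
      have hxeq : x = x' := by
        by_contra hne'
        rcases Finset.mem_insert.1 hx1 with rfl | hxP
        · rcases Finset.mem_insert.1 hx1' with h6 | hxP'
          · exact hne' h6.symm
          · exact hcon _ hxP' ht
        · rcases Finset.mem_insert.1 hx1' with rfl | hxP'
          · refine hcon _ hxP ?_
            convert ht using 1 <;> ring
          · exact hPne x hxP x' hxP' hne' ht
      subst hxeq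
      have hjj : j = j' := by
        by_contra hjj
        have hAx : algebraMap (𝓞 K) K (((u x j : 𝓞 K) * ∏ i ∈ A x j, q i) *
            ((u x j' : 𝓞 K) * ∏ i ∈ A x j', q i)) =
            (algebraMap (𝓞 K) K (z : 𝓞 K) * algebraMap (𝓞 K) K (∏ i ∈ A x j, q i)) ^ 2 := by
          rw [mul_pow, ← hz', ← hAA]
          simp only [map_mul]
          ring
        cases j <;> cases j'
        · exact hjj rfl
        · exact hns x hx1 _ hAx
        · refine hns x hx1 _ (Eq.trans ?_ hAx)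
          rw [mul_comm]
        · exact hjj rfl
      rw [hjj]
  rw [Finset.card_product, Finset.card_insert_of_notMem hab, Finset.card_univ,
    Fintype.card_bool] at hle
  omega

/-- The final statement. -/
theorem many_primes (hclass : Odd (NumberField.classNumber K))
    (hpos : ∀ u : (𝓞 K)ˣ, (∀ f : K →+* ℝ, 0 < f (algebraMap (𝓞 K) K (u : 𝓞 K))) → IsSquare u)
    (h2 : Prime (2 : 𝓞 K)) (q : ι → 𝓞 K) (hq : ∀ i, Prime (q i))
    (hqq : ∀ i j, i ≠ j → ¬ Associated (q i) (q j))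
    (hqpos : ∀ i, ∀ f : K →+* ℝ, 0 < f (algebraMap (𝓞 K) K (q i)))
    (hq2 : ∀ i, ¬ 2 ∣ q i) (c e : 𝓞 K) (hne : 4 ∣ ∏ i, q i - c ^ 2 * (1 + 2 * e)) :
    (∀ a b : K, a ≠ 0 → b ≠ 0 → SelmerPair K (algebraMap (𝓞 K) K (∏ i, q i)) a b →
      ∃ (A B : Finset ι) (u : (𝓞 K)ˣ) (t : 𝓞 K), IsClass q e A B (u : 𝓞 K) t ∧
        TorsionPair (algebraMap (𝓞 K) K (∏ i, q i))
          (a * algebraMap (𝓞 K) K ((u : 𝓞 K) * ∏ i ∈ A, q i))
          (b * algebraMap (𝓞 K) K ((u : 𝓞 K) * ∏ i ∈ B, q i))) ∧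
    (∀ P : Finset (K × K),
      (∀ p ∈ P, p.1 ≠ 0 ∧ p.2 ≠ 0 ∧ HasPoint (algebraMap (𝓞 K) K (∏ i, q i)) p.1 p.2) →
      (∀ p ∈ P, ∀ p' ∈ P, p ≠ p' →
        ¬ TorsionPair (algebraMap (𝓞 K) K (∏ i, q i)) (p.1 * p'.1) (p.2 * p'.2)) →
      (classes q e).ncard ≤ 2 * P.card →
      ∀ a b : K, a ≠ 0 → b ≠ 0 →
        (SelmerPair K (algebraMap (𝓞 K) K (∏ i, q i)) a b ↔
          HasPoint (algebraMap (𝓞 K) K (∏ i, q i)) a b) ∧
        (SelmerPair K (algebraMap (𝓞 K) K (∏ i, q i)) a b ↔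
          ∃ p ∈ P, TorsionPair (algebraMap (𝓞 K) K (∏ i, q i)) (a * p.1) (b * p.2))) := by
  have hfour : ∀ u : (𝓞 K)ˣ, (∃ m : 𝓞 K, (4 : 𝓞 K) ∣ (u : 𝓞 K) - m ^ 2) → IsSquare u :=
    fun u ⟨m, hm⟩ => isSquare_of_sq_mod_four hclass hpos u m hm
  have hn0 : algebraMap (𝓞 K) K (∏ i, q i) ≠ 0 := by
    rw [Ne, map_eq_zero_iff _ (FaithfulSMul.algebraMap_injective (𝓞 K) K)]
    exact Finset.prod_ne_zero_iff.mpr fun i _ => (hq i).ne_zero
  have hglob : ∀ a b : K, HasPoint (algebraMap (𝓞 K) K (∏ i, q i)) a b →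
      SelmerPair K (algebraMap (𝓞 K) K (∏ i, q i)) a b :=
    fun a b h => ⟨fun v => h.map _, fun f => h.map f⟩
  refine ⟨?_, ?_⟩
  · intro a b ha hb h
    obtain ⟨A, B, u, t, hj, _⟩ := selmer_two hclass hpos h2 q hq hqq hqpos hq2 c e hne a b ha hb h
    exact ⟨A false, B false, u false, t false, (hj false).1, (hj false).2⟩
  · intro P hP hPne hcard a b ha hb
    have h1 : SelmerPair K (algebraMap (𝓞 K) K (∏ i, q i)) a b →
        ∃ p ∈ P, TorsionPair (algebraMap (𝓞 K) K (∏ i, q i)) (a * p.1) (b * p.2) :=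
      uniform hclass hpos hfour h2 q hq hqq hqpos hq2 c e hne P
        (fun p hp => ⟨(hP p hp).1, (hP p hp).2.1⟩) (fun p hp => (hP p hp).2.2) hPne hcard
        a b ha hb
    have h3 : (∃ p ∈ P, TorsionPair (algebraMap (𝓞 K) K (∏ i, q i)) (a * p.1) (b * p.2)) →
        HasPoint (algebraMap (𝓞 K) K (∏ i, q i)) a b := by
      rintro ⟨p, hp, ht⟩
      exact hasPoint_of_equiv hn0 (hP p hp).1 (hP p hp).2.1 (hP p hp).2.2 ht
    exact ⟨⟨fun h => h3 (h1 h), hglob a b⟩, ⟨h1, fun h => hglob a b (h3 h)⟩⟩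

/-- The case where only the two representatives of the torsion classes occur. -/
theorem many_primes_one (hclass : Odd (NumberField.classNumber K))
    (hpos : ∀ u : (𝓞 K)ˣ, (∀ f : K →+* ℝ, 0 < f (algebraMap (𝓞 K) K (u : 𝓞 K))) → IsSquare u)
    (h2 : Prime (2 : 𝓞 K)) (q : ι → 𝓞 K) (hq : ∀ i, Prime (q i))
    (hqq : ∀ i j, i ≠ j → ¬ Associated (q i) (q j))
    (hqpos : ∀ i, ∀ f : K →+* ℝ, 0 < f (algebraMap (𝓞 K) K (q i)))
    (hq2 : ∀ i, ¬ 2 ∣ q i) (c e : 𝓞 K) (hne : 4 ∣ ∏ i, q i - c ^ 2 * (1 + 2 * e))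
    (hone : ∀ (A B : Finset ι) (u : (𝓞 K)ˣ) (t : 𝓞 K),
        IsClass q e A B (u : 𝓞 K) t →
        A = ∅ ∧ ((B = ∅ ∧ 2 ∣ t) ∨ (B = Finset.univ ∧ 2 ∣ t - 1)))
    (a b : K) (ha : a ≠ 0) (hb : b ≠ 0) :
    SelmerPair K (algebraMap (𝓞 K) K (∏ i, q i)) a b ↔
      TorsionPair (algebraMap (𝓞 K) K (∏ i, q i)) a b := by
  have hcard : (classes q e).ncard ≤ 2 * ({((1 : K), (1 : K))} : Finset (K × K)).card := by
    rw [Finset.card_singleton]
    have hsub : classes q e ⊆ {(∅, ∅, 0), (∅, Finset.univ, 1)} := by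
      rintro ⟨A, B, z⟩ ⟨u, t, htz, hcl⟩
      obtain ⟨hA, hB⟩ := hone A B u t hcl
      simp only [Set.mem_insert_iff, Set.mem_singleton_iff, Prod.mk.injEq]
      simp only at htz
      rcases hB with ⟨hB, ht⟩ | ⟨hB, ht⟩
      · refine Or.inl ⟨hA, hB, ?_⟩
        rw [← htz, Ideal.Quotient.eq_zero_iff_mem, Ideal.mem_span_singleton]
        exact ht
      · refine Or.inr ⟨hA, hB, ?_⟩
        rw [← htz, ← map_one (Ideal.Quotient.mk _), Ideal.Quotient.eq, Ideal.mem_span_singleton]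
        exact ht
    calc (classes q e).ncard ≤ ({(∅, ∅, 0), (∅, Finset.univ, 1)} : Set (Finset ι × Finset ι ×
          (𝓞 K ⧸ Ideal.span {(2 : 𝓞 K)}))).ncard := Set.ncard_le_ncard hsub (Set.toFinite _)
      _ ≤ 2 * 1 := by
        refine le_trans (Set.ncard_insert_le _ _) ?_
        rw [Set.ncard_singleton]
  have key := (many_primes hclass hpos h2 q hq hqq hqpos hq2 c e hne).2 {((1 : K), (1 : K))} (by
      intro p hp
      rw [Finset.mem_singleton] at hp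
      subst hp
      exact ⟨one_ne_zero, one_ne_zero, ⟨1, 1, 1, 0, Or.inl one_ne_zero, by ring, by ring⟩⟩)
    (by
      intro p hp p' hp' hne'
      rw [Finset.mem_singleton] at hp hp'
      exact absurd (hp.trans hp'.symm) hne')
    hcard a b ha hb
  rw [key.2]
  constructor
  · rintro ⟨p, hp, ht⟩
    rw [Finset.mem_singleton] at hp
    subst hp
    simpa using ht
  · intro ht
    exact ⟨(1, 1), Finset.mem_singleton_self _, by simpa using ht⟩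

end Pool.Agent.MP009fd8M
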